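import Mathlib
import Pool.Agent.Q270.GcdSub

/-!
# Non-zero algebraic linear forms in integers close to powers are not small
-/

set_option autoImplicit false

open Finset Filter Topology

namespace Pool.Agent.Q164.JW

open Pool.Agent.TH419.WI (mon)

lemma pow_eq_exp {b : ℕ} (hb : 2 ≤ b) (e : ℕ) :
    (b : ℝ) ^ e = Real.exp (e * Real.log b) := by
  have hb0 : (0 : ℝ) < b := by
    have : (2 : ℝ) ≤ b := by exact_mod_cast hb
    linarith
  rw [← Real.rpow_natCast, Real.rpow_def_of_pos hb0, mul_comm]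

/-- admissible data -/
def Dat (b m : ℕ) (δ ε : ℝ) (L : ℕ) (e : Fin m → ℕ) (lam : Fin m → ℤ) : Prop :=
  (∀ i, L ≤ e i) ∧ (∀ i, δ * e i ≤ L) ∧ (∀ j, |(lam j : ℝ)| ≤ Real.exp (ε * (L * Real.log b)))

/-- the form without constant term is not small -/
def GoodI (b m : ℕ) : Prop := ∀ β : Fin m → ℝ, (∀ j, IsAlgebraic ℚ (β j)) → ∀ δ : ℝ, 0 < δ →
  ∃ ε : ℝ, 0 < ε ∧ ∃ L0 : ℕ, ∀ L : ℕ, L0 ≤ L → ∀ (e : Fin m → ℕ) (lam : Fin m → ℤ),
    Dat b m δ ε L e lam → ∑ j, β j * ((lam j : ℝ) * (b : ℝ) ^ (e j)) ≠ 0 →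
    Real.exp (-(δ * (L * Real.log b))) < |∑ j, β j * ((lam j : ℝ) * (b : ℝ) ^ (e j))|

/-- the form with constant term is not small -/
def GoodII (b m : ℕ) : Prop := ∀ β : Fin m → ℝ, (∀ j, IsAlgebraic ℚ (β j)) → ∀ δ : ℝ, 0 < δ →
  ∃ ε : ℝ, 0 < ε ∧ ∃ L0 : ℕ, ∀ L : ℕ, L0 ≤ L → ∀ (e : Fin m → ℕ) (lam : Fin m → ℤ),
    Dat b m δ ε L e lam → ∀ P : ℤ, ∑ j, β j * ((lam j : ℝ) * (b : ℝ) ^ (e j)) - P ≠ 0 →
    Real.exp (-(δ * (L * Real.log b))) < |∑ j, β j * ((lam j : ℝ) * (b : ℝ) ^ (e j)) - P|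

/-- elimination of one variable -/
lemma elim_var {m : ℕ} (β : Fin (m + 1) → ℝ) (y : Fin (m + 1) → ℤ) (j1 : Fin (m + 1))
    (hy : y j1 ≠ 0) (x : Fin (m + 1) → ℝ) (r : ℝ) (h : ∑ j, (y j : ℝ) * x j = r) :
    ∑ j, β j * x j = ∑ i, (β (j1.succAbove i) - β j1 * y (j1.succAbove i) / y j1) *
      x (j1.succAbove i) + β j1 / y j1 * r := by
  have hyR : (y j1 : ℝ) ≠ 0 := by exact_mod_cast hy
  rw [Fin.sum_univ_succAbove _ j1] at h ⊢
  have h1 : x j1 = (r - ∑ i, (y (j1.succAbove i) : ℝ) * x (j1.succAbove i)) / y j1 := by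
    rw [eq_div_iff hyR]; linarith
  rw [h1]
  have h2 : ∑ i, (β (j1.succAbove i) - β j1 * y (j1.succAbove i) / y j1) *
      x (j1.succAbove i) = ∑ i, β (j1.succAbove i) * x (j1.succAbove i) -
      β j1 / y j1 * ∑ i, (y (j1.succAbove i) : ℝ) * x (j1.succAbove i) := by
    rw [Finset.mul_sum, ← Finset.sum_sub_distrib]
    apply Finset.sum_congr rfl
    intro i _
    ring
  rw [h2]
  field_simp
  ring

lemma alg_elim {m : ℕ} {β : Fin (m + 1) → ℝ} (hβ : ∀ j, IsAlgebraic ℚ (β j))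
    (y : Fin (m + 1) → ℤ) (j1 : Fin (m + 1)) (i : Fin m) :
    IsAlgebraic ℚ (β (j1.succAbove i) - β j1 * y (j1.succAbove i) / y j1) := by
  have h2 := ((hβ j1).mul (isAlgebraic_int (R := ℚ) (A := ℝ) (y (j1.succAbove i)))).mul
    ((isAlgebraic_int (R := ℚ) (A := ℝ) (y j1)).inv)
  rw [← div_eq_mul_inv] at h2
  exact (hβ _).sub h2

lemma det_row {n : ℕ} (i : Fin n) (v : Fin n → ℝ) :
    ((1 : Matrix (Fin n) (Fin n) ℝ).updateRow i v).det = v i := by
  have h := Matrix.cramer_transpose_apply (1 : Matrix (Fin n) (Fin n) ℝ) v i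
  rw [Matrix.transpose_one, Matrix.cramer_one] at h
  rw [← h]
  rfl

lemma Dat.mono {b m : ℕ} (hb : 2 ≤ b) {δ δ' ε ε' : ℝ} (hδ : δ' ≤ δ) (hε : ε ≤ ε') {L : ℕ}
    {e : Fin m → ℕ} {lam : Fin m → ℤ} (h : Dat b m δ ε L e lam) : Dat b m δ' ε' L e lam := by
  have hlog : 0 ≤ Real.log b := Real.log_natCast_nonneg b
  refine ⟨h.1, fun i => ?_, fun j => (h.2.2 j).trans ?_⟩
  · exact le_trans (mul_le_mul_of_nonneg_right hδ (Nat.cast_nonneg _)) (h.2.1 i)
  · apply Real.exp_le_exp.mpr
    exact mul_le_mul_of_nonneg_right hε (by positivity)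

lemma Dat.comp {b m m' : ℕ} {δ ε : ℝ} {L : ℕ}
    {e : Fin m → ℕ} {lam : Fin m → ℤ} (h : Dat b m δ ε L e lam) (f : Fin m' → Fin m) :
    Dat b m' δ ε L (fun i => e (f i)) (fun i => lam (f i)) :=
  ⟨fun _ => h.1 _, fun _ => h.2.1 _, fun _ => h.2.2 _⟩

/-- the subspace theorem for the form without constant term -/
lemma relI {b : ℕ} (hb : 2 ≤ b) {m : ℕ} (β : Fin m → ℝ) (hβ : ∀ j, IsAlgebraic ℚ (β j))
    (j0 : Fin m) (hj0 : β j0 ≠ 0) (δ : ℝ) (hδ : 0 < δ) (hδ1 : δ ≤ 1)
    (L : ℕ → ℕ) (hL : ∀ t, t + 1 ≤ L t) (e : ℕ → Fin m → ℕ) (lam : ℕ → Fin m → ℤ)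
    (hD : ∀ t, Dat b m δ (δ / (2 * (m + 1))) (L t) (e t) (lam t)) (hlam : ∀ t, lam t ≠ 0)
    (hs : ∀ t, |∑ j, β j * ((lam t j : ℝ) * (b : ℝ) ^ (e t j))| ≤
      Real.exp (-(δ * (L t * Real.log b)))) :
    ∃ y : Fin m → ℤ, y ≠ 0 ∧ ∃ᶠ t in atTop, ∑ j, (y j : ℝ) *
      ((lam t j : ℝ) * (b : ℝ) ^ (e t j)) = 0 := by
  classical
  have hm : 1 ≤ m := by
    have := j0.isLt
    omega
  have hbR : (2 : ℝ) ≤ b := by exact_mod_cast hb
  have hb0 : (0 : ℝ) < b := by linarith
  have hlogb : 0 < Real.log b := Real.log_pos (by linarith)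
  set N : ℕ → ℝ := fun t => (L t : ℝ) * Real.log b with hN
  have hN0 : ∀ t, 0 ≤ N t := fun t => by simp only [hN]; positivity
  have hmon : ∀ k : ℕ, mon (fun _ : Fin 1 => b) (fun _ => k) = (b : ℤ) ^ k := by
    intro k
    simp [mon]
  have hlogmon : ∀ k : ℕ, Real.log (mon (fun _ : Fin 1 => b) (fun _ => k) : ℤ) =
      k * Real.log b := by
    intro k
    rw [hmon]
    push_cast
    rw [Real.log_pow]
  set ε : ℝ := δ / (2 * (m + 1)) with hε
  have hm0 : (0 : ℝ) < m := by exact_mod_cast hm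
  have hε0 : 0 < ε := by rw [hε]; positivity
  have hεm : ε * m ≤ δ / 2 := by
    rw [hε, div_mul_eq_mul_div, div_le_iff₀ (by positivity)]
    nlinarith
  have hε1 : ε ≤ 1 := by
    rw [hε, div_le_one (by positivity)]
    nlinarith
  have he1 : ∀ t j, (L t : ℝ) ≤ e t j := fun t j => by exact_mod_cast (hD t).1 j
  have he2 : ∀ t j, (e t j : ℝ) * Real.log b ≤ N t / δ := by
    intro t j
    rw [le_div_iff₀ hδ]
    have := (hD t).2.1 j
    have h2 := mul_le_mul_of_nonneg_right this hlogb.le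
    simp only [hN]
    linarith
  set A : ℕ → Fin m → ℝ := fun t j => if j = j0 then Real.exp (-(δ * N t)) else
    Real.exp (e t j * Real.log b + ε * N t) with hA
  have hlogA : ∀ t j, Real.log (A t j) = if j = j0 then -(δ * N t) else
      e t j * Real.log b + ε * N t := by
    intro t j
    simp only [hA]
    split_ifs <;> rw [Real.log_exp]
  have hmain := Pool.Agent.Q270.Gs.subR (n := m) (k := 1) hm (fun _ => b) (fun _ => by omega)
    ((1 : Matrix (Fin m) (Fin m) ℝ).updateRow j0 β)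
    (by
      intro i j
      by_cases hi : i = j0
      · subst hi
        rw [Matrix.updateRow_self]
        exact hβ j
      · rw [Matrix.updateRow_ne hi, Matrix.one_apply]
        split_ifs
        · exact isAlgebraic_one
        · exact isAlgebraic_zero)
    (by rw [det_row]; exact hj0)
    ((m + 1) / δ + 1) (δ / 2) (by positivity) N
    (by
      apply Tendsto.atTop_mul_const hlogb
      apply tendsto_natCast_atTop_atTop.comp
      apply tendsto_atTop_mono (fun t => (Nat.le_succ t).trans (hL t)) tendsto_id)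
    (fun t l _ => e t l) A lam
    (by
      intro t
      simp only [hlogmon]
      have h1 : ∑ l : Fin m, (e t l : ℝ) * Real.log b ≤ m * (N t / δ) := by
        refine (Finset.sum_le_card_nsmul _ _ _ (fun l _ => he2 t l)).trans ?_
        simp
      have h2 : 0 ≤ N t / δ := div_nonneg (hN0 t) hδ.le
      have h3 : ((m : ℝ) + 1) / δ * N t = (m + 1) * (N t / δ) := by ring
      have := hN0 t
      nlinarith)
    (by
      intro t l
      simp only [hA]
      split_ifs <;> exact Real.exp_pos _)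
    (by
      intro t l
      rw [hlogA]
      have h2 : 0 ≤ N t / δ := div_nonneg (hN0 t) hδ.le
      have h3 : ((m : ℝ) + 1) / δ * N t = (m + 1) * (N t / δ) := by ring
      have h4 := hN0 t
      have h5 : 0 ≤ (m : ℝ) * (N t / δ) := by positivity
      split_ifs
      · rw [abs_neg, abs_of_nonneg (by positivity)]
        have : δ * N t ≤ 1 * N t := mul_le_mul_of_nonneg_right hδ1 h4
        nlinarith
      · rw [abs_of_nonneg (by positivity)]
        have := he2 t l
        have h6 : ε * N t ≤ 1 * N t := mul_le_mul_of_nonneg_right hε1 h4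
        nlinarith)
    (by
      intro t
      simp only [hlogmon, hlogA]
      have h1 : ∑ l : Fin m, (if l = j0 then -(δ * N t) else
          (e t l : ℝ) * Real.log b + ε * N t) ≤ ∑ l : Fin m, ((e t l : ℝ) * Real.log b + ε * N t) -
          δ * N t := by
        rw [← Finset.add_sum_erase _ _ (Finset.mem_univ j0),
          ← Finset.add_sum_erase (Finset.univ : Finset (Fin m))
            (fun l => (e t l : ℝ) * Real.log b + ε * N t) (Finset.mem_univ j0)]
        rw [if_pos rfl]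
        have h2 : ∑ x ∈ Finset.univ.erase j0, (if x = j0 then -(δ * N t) else
            (e t x : ℝ) * Real.log b + ε * N t) =
            ∑ x ∈ Finset.univ.erase j0, ((e t x : ℝ) * Real.log b + ε * N t) := by
          apply Finset.sum_congr rfl
          intro x hx
          rw [if_neg (Finset.ne_of_mem_erase hx)]
        rw [h2]
        have h3 : 0 ≤ (e t j0 : ℝ) * Real.log b + ε * N t := by
          have := hN0 t
          positivity
        linarith
      rw [Finset.sum_add_distrib, Finset.sum_const, nsmul_eq_mul, Finset.card_univ,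
        Fintype.card_fin] at h1
      have h4 := mul_le_mul_of_nonneg_right hεm (hN0 t)
      nlinarith)
    hlam
    (by
      intro t l
      simp only [hmon, hA]
      by_cases hl : l = j0
      · subst hl
        rw [if_pos rfl, Matrix.updateRow_self]
        refine le_trans (le_of_eq ?_) (hs t)
        congr 1
        apply Finset.sum_congr rfl
        intro j _
        push_cast
        ring
      · rw [if_neg hl, Matrix.updateRow_ne hl]
        have h1 : ∑ j, (1 : Matrix (Fin m) (Fin m) ℝ) l j * (((b : ℤ) ^ (e t j) * lam t j : ℤ) : ℝ) =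
            (b : ℝ) ^ (e t l) * lam t l := by
          rw [Finset.sum_eq_single l]
          · rw [Matrix.one_apply_eq]
            push_cast
            ring
          · intro j _ hj
            rw [Matrix.one_apply_ne (Ne.symm hj), zero_mul]
          · intro h; exact absurd (Finset.mem_univ _) h
        rw [h1, abs_mul, abs_of_pos (pow_pos hb0 _), pow_eq_exp hb, Real.exp_add]
        exact mul_le_mul_of_nonneg_left ((hD t).2.2 l) (Real.exp_pos _).le)
  obtain ⟨y, hy, hfr⟩ := hmain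
  refine ⟨y, hy, hfr.mono ?_⟩
  intro t ht
  simp only [hmon] at ht
  have h1 : ((∑ l, y l * ((b : ℤ) ^ (e t l) * lam t l) : ℤ) : ℝ) = 0 := by rw [ht]; simp
  push_cast at h1
  rw [← h1]
  apply Finset.sum_congr rfl
  intro j _
  ring

end Pool.Agent.Q164.JW
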