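import Mathlib
import Pool.Agent.Q164.JW.Small

/-!
# Non-zero algebraic linear forms are not small: the form with a constant term, the induction
-/

set_option autoImplicit false

open Finset Filter Topology

namespace Pool.Agent.Q164.JW

open Pool.Agent.TH419.WI (mon)

/-- the subspace theorem for the form with constant term -/
lemma relII {b : ℕ} (hb : 2 ≤ b) {m : ℕ} (β : Fin m → ℝ) (hβ : ∀ j, IsAlgebraic ℚ (β j))
    (δ : ℝ) (hδ : 0 < δ) (hδ1 : δ ≤ 1)
    (L : ℕ → ℕ) (hL : ∀ t, t + 1 ≤ L t) (e : ℕ → Fin m → ℕ) (lam : ℕ → Fin m → ℤ)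
    (P : ℕ → ℤ)
    (hD : ∀ t, Dat b m δ (δ / (2 * (m + 1))) (L t) (e t) (lam t))
    (hne : ∀ t, ∑ j, β j * ((lam t j : ℝ) * (b : ℝ) ^ (e t j)) - P t ≠ 0)
    (hs : ∀ t, |∑ j, β j * ((lam t j : ℝ) * (b : ℝ) ^ (e t j)) - P t| ≤
      Real.exp (-(δ * (L t * Real.log b)))) :
    ∃ (y : Fin m → ℤ) (y0 : ℤ), (y ≠ 0 ∨ y0 ≠ 0) ∧ ∃ᶠ t in atTop, ∑ j, (y j : ℝ) *
      ((lam t j : ℝ) * (b : ℝ) ^ (e t j)) + y0 * P t = 0 := by
  classical
  have hbR : (2 : ℝ) ≤ b := by exact_mod_cast hb
  have hb0 : (0 : ℝ) < b := by linarith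
  have hlogb : 0 < Real.log b := Real.log_pos (by linarith)
  set N : ℕ → ℝ := fun t => (L t : ℝ) * Real.log b with hN
  have hN0 : ∀ t, 0 ≤ N t := fun t => by simp only [hN]; positivity
  have hmon : ∀ k : ℕ, mon (fun _ : Fin 1 => b) (fun _ => k) = (b : ℤ) ^ k := by
    intro k
    simp [mon]
  have hlogmon : ∀ k : ℕ, Real.log (mon (fun _ : Fin 1 => b) (fun _ => k) : ℤ) =
      k * Real.log b := by
    intro k
    rw [hmon]
    push_cast
    rw [Real.log_pow]
  set ε : ℝ := δ / (2 * (m + 1)) with hε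
  have hm0 : (0 : ℝ) ≤ m := Nat.cast_nonneg m
  have hε0 : 0 < ε := by rw [hε]; positivity
  have hεm : ε * m ≤ δ / 2 := by
    rw [hε, div_mul_eq_mul_div, div_le_iff₀ (by positivity)]
    nlinarith
  have hε1 : ε ≤ 1 := by
    rw [hε, div_le_one (by positivity)]
    nlinarith
  have he1 : ∀ t j, (L t : ℝ) ≤ e t j := fun t j => by exact_mod_cast (hD t).1 j
  have he2 : ∀ t j, (e t j : ℝ) * Real.log b ≤ N t / δ := by
    intro t j
    rw [le_div_iff₀ hδ]
    have := (hD t).2.1 j
    have h2 := mul_le_mul_of_nonneg_right this hlogb.le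
    simp only [hN]
    linarith
  set A : ℕ → Fin (m + 1) → ℝ := fun t => Fin.cons (Real.exp (-(δ * N t)))
    (fun j => Real.exp (e t j * Real.log b + ε * N t)) with hA
  set e' : ℕ → Fin (m + 1) → ℕ := fun t => Fin.cons 0 (e t) with he'
  set z : ℕ → Fin (m + 1) → ℤ := fun t => Fin.cons (P t) (lam t) with hz
  set β' : Fin (m + 1) → ℝ := Fin.cons (-1) β with hβ'
  have hform : ∀ t, ∑ j, β' j * (((b : ℤ) ^ (e' t j) * z t j : ℤ) : ℝ) =
      ∑ j, β j * ((lam t j : ℝ) * (b : ℝ) ^ (e t j)) - P t := by
    intro t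
    rw [Fin.sum_univ_succ]
    simp only [hβ', he', hz, Fin.cons_zero, Fin.cons_succ]
    push_cast
    have : ∀ j, β j * ((b : ℝ) ^ (e t j) * (lam t j : ℝ)) =
        β j * ((lam t j : ℝ) * (b : ℝ) ^ (e t j)) := fun j => by ring
    rw [Finset.sum_congr rfl fun j _ => this j]
    ring
  have hmain := Pool.Agent.Q270.Gs.subR (n := m + 1) (k := 1) (by omega) (fun _ => b)
    (fun _ => by omega)
    ((1 : Matrix (Fin (m + 1)) (Fin (m + 1)) ℝ).updateRow 0 β')
    (by
      intro i j
      by_cases hi : i = 0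
      · subst hi
        rw [Matrix.updateRow_self]
        refine Fin.cases ?_ (fun j => ?_) j
        · simp only [hβ', Fin.cons_zero]
          exact isAlgebraic_one.neg
        · simp only [hβ', Fin.cons_succ]
          exact hβ j
      · rw [Matrix.updateRow_ne hi, Matrix.one_apply]
        split_ifs
        · exact isAlgebraic_one
        · exact isAlgebraic_zero)
    (by rw [det_row]; simp [hβ'])
    ((m + 1) / δ + 1) (δ / 2) (by positivity) N
    (by
      apply Tendsto.atTop_mul_const hlogb
      apply tendsto_natCast_atTop_atTop.comp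
      apply tendsto_atTop_mono (fun t => (Nat.le_succ t).trans (hL t)) tendsto_id)
    (fun t l _ => e' t l) A z
    (by
      intro t
      simp only [hlogmon]
      rw [Fin.sum_univ_succ]
      simp only [he', Fin.cons_zero, Fin.cons_succ, Nat.cast_zero, zero_mul, zero_add]
      have h1 : ∑ l : Fin m, (e t l : ℝ) * Real.log b ≤ m * (N t / δ) := by
        refine (Finset.sum_le_card_nsmul _ _ _ (fun l _ => he2 t l)).trans ?_
        simp
      have h2 : 0 ≤ N t / δ := div_nonneg (hN0 t) hδ.le
      have h3 : ((m : ℝ) + 1) / δ * N t = (m + 1) * (N t / δ) := by ring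
      have := hN0 t
      nlinarith)
    (by
      intro t l
      refine Fin.cases ?_ (fun l => ?_) l
      · simp only [hA, Fin.cons_zero]; exact Real.exp_pos _
      · simp only [hA, Fin.cons_succ]; exact Real.exp_pos _)
    (by
      intro t l
      have h2 : 0 ≤ N t / δ := div_nonneg (hN0 t) hδ.le
      have h3 : ((m : ℝ) + 1) / δ * N t = (m + 1) * (N t / δ) := by ring
      have h4 := hN0 t
      have h5 : 0 ≤ (m : ℝ) * (N t / δ) := by positivity
      refine Fin.cases ?_ (fun l => ?_) l
      · simp only [hA, Fin.cons_zero]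
        rw [Real.log_exp, abs_neg, abs_of_nonneg (by positivity)]
        have : δ * N t ≤ 1 * N t := mul_le_mul_of_nonneg_right hδ1 h4
        nlinarith
      · simp only [hA, Fin.cons_succ]
        rw [Real.log_exp, abs_of_nonneg (by positivity)]
        have := he2 t l
        have h6 : ε * N t ≤ 1 * N t := mul_le_mul_of_nonneg_right hε1 h4
        nlinarith)
    (by
      intro t
      simp only [hlogmon]
      rw [Fin.sum_univ_succ, Fin.sum_univ_succ]
      simp only [he', hA, Fin.cons_zero, Fin.cons_succ, Nat.cast_zero, zero_mul, zero_add,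
        Real.log_exp]
      rw [Finset.sum_add_distrib, Finset.sum_const, nsmul_eq_mul, Finset.card_univ,
        Fintype.card_fin]
      have h4 := mul_le_mul_of_nonneg_right hεm (hN0 t)
      nlinarith)
    (by
      intro t h0
      apply hne t
      rw [← hform t, h0]
      simp)
    (by
      intro t l
      simp only [hmon]
      refine Fin.cases ?_ (fun l => ?_) l
      · rw [Matrix.updateRow_self]
        simp only [hA, Fin.cons_zero]
        rw [hform]
        exact hs t
      · rw [Matrix.updateRow_ne (Fin.succ_ne_zero l)]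
        have h1 : ∑ j, (1 : Matrix (Fin (m + 1)) (Fin (m + 1)) ℝ) l.succ j *
            (((b : ℤ) ^ (e' t j) * z t j : ℤ) : ℝ) = (b : ℝ) ^ (e t l) * lam t l := by
          rw [Finset.sum_eq_single l.succ]
          · rw [Matrix.one_apply_eq]
            simp only [he', hz, Fin.cons_succ]
            push_cast
            ring
          · intro j _ hj
            rw [Matrix.one_apply_ne (Ne.symm hj), zero_mul]
          · intro h; exact absurd (Finset.mem_univ _) h
        rw [h1, abs_mul, abs_of_pos (pow_pos hb0 _), pow_eq_exp hb]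
        simp only [hA, Fin.cons_succ]
        rw [Real.exp_add]
        exact mul_le_mul_of_nonneg_left ((hD t).2.2 l) (Real.exp_pos _).le)
  obtain ⟨y, hy, hfr⟩ := hmain
  refine ⟨fun j => y j.succ, y 0, ?_, hfr.mono ?_⟩
  · by_contra hcon
    push Not at hcon
    apply hy
    funext j
    refine Fin.cases ?_ (fun j => ?_) j
    · exact hcon.2
    · exact congrFun hcon.1 j
  · intro t ht
    simp only [hmon] at ht
    have h1 : ((∑ l, y l * ((b : ℤ) ^ (e' t l) * z t l) : ℤ) : ℝ) = 0 := by rw [ht]; simp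
    rw [Fin.sum_univ_succ] at h1
    simp only [he', hz, Fin.cons_zero, Fin.cons_succ] at h1
    push_cast at h1
    rw [← h1]
    have : ∀ j : Fin m, (y j.succ : ℝ) * ((lam t j : ℝ) * (b : ℝ) ^ (e t j)) =
        (y j.succ : ℝ) * ((b : ℝ) ^ (e t j) * (lam t j : ℝ)) := fun j => by ring
    rw [Finset.sum_congr rfl fun j _ => this j]
    ring

/-- **No small non-zero form, without constant term.** -/
theorem goodI {b : ℕ} (hb : 2 ≤ b) : ∀ m, GoodI b m := by
  intro m
  induction m with
  | zero =>
    intro β _ δ _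
    refine ⟨1, one_pos, 0, ?_⟩
    intro L _ e lam _ hne
    simp at hne
  | succ m ih =>
    intro β hβ δ0 hδ0
    by_cases hβ0 : β = 0
    · refine ⟨1, one_pos, 0, ?_⟩
      intro L _ e lam _ hne
      rw [hβ0] at hne
      simp at hne
    obtain ⟨j0, hj0⟩ : ∃ j0, β j0 ≠ 0 := by
      by_contra hcon
      push Not at hcon
      exact hβ0 (funext hcon)
    have hlog0 : 0 ≤ Real.log b := Real.log_natCast_nonneg b
    set δ : ℝ := min δ0 1 with hδd
    have hδ : 0 < δ := lt_min hδ0 one_pos
    have hδ1 : δ ≤ 1 := min_le_right _ _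
    have hδ2 : δ ≤ δ0 := min_le_left _ _
    by_contra hcon
    push Not at hcon
    have hseq : ∀ t : ℕ, ∃ L : ℕ, t + 1 ≤ L ∧ ∃ (e : Fin (m + 1) → ℕ) (lam : Fin (m + 1) → ℤ),
        Dat b (m + 1) δ (min (δ / (2 * ((m + 1 : ℕ) + 1))) (1 / (t + 1))) L e lam ∧
        ∑ j, β j * ((lam j : ℝ) * (b : ℝ) ^ (e j)) ≠ 0 ∧
        |∑ j, β j * ((lam j : ℝ) * (b : ℝ) ^ (e j))| ≤ Real.exp (-(δ * (L * Real.log b))) := by
      intro t
      obtain ⟨L, hL, e, lam, h1, h2, h3⟩ := hcon (min (δ / (2 * ((m + 1 : ℕ) + 1))) (1 / (t + 1)))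
        (lt_min (by positivity) (by positivity)) (t + 1)
      refine ⟨L, hL, e, lam, h1.mono hb hδ2 le_rfl, h2, h3.trans ?_⟩
      apply Real.exp_le_exp.mpr
      have : 0 ≤ (L : ℝ) * Real.log b := by positivity
      nlinarith
    choose L hL e lam hD hne hs using hseq
    obtain ⟨y, hy, hfr⟩ := relI hb β hβ j0 hj0 δ hδ hδ1 L hL e lam
      (fun t => (hD t).mono hb le_rfl (min_le_left _ _))
      (by
        intro t h0
        apply hne t
        rw [h0]; simp)
      hs
    obtain ⟨j1, hj1⟩ : ∃ j1, y j1 ≠ 0 := by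
      by_contra h
      push Not at h
      exact hy (funext h)
    obtain ⟨ε', hε', L1, h1⟩ := ih _ (alg_elim hβ y j1) δ hδ
    obtain ⟨t, ht, ht2⟩ := (hfr.and_eventually (eventually_ge_atTop (max L1 ⌈1 / ε'⌉₊))).exists
    have hε : 1 / ((t : ℝ) + 1) ≤ ε' := by
      have h2 : 1 / ε' ≤ t := by
        refine (Nat.le_ceil _).trans ?_
        exact_mod_cast (le_max_right _ _).trans ht2
      rw [div_le_iff₀ (by positivity)]
      rw [div_le_iff₀ hε'] at h2
      nlinarith
    have hLL : L1 ≤ L t := ((le_max_left _ _).trans ht2).trans ((Nat.le_succ t).trans (hL t))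
    have heq := elim_var β y j1 hj1 (fun j => (lam t j : ℝ) * (b : ℝ) ^ (e t j)) 0 ht
    rw [mul_zero, add_zero] at heq
    have h2 := h1 (L t) hLL (fun i => e t (j1.succAbove i)) (fun i => lam t (j1.succAbove i))
      (((hD t).mono hb le_rfl ((min_le_right _ _).trans hε)).comp _)
      (by rw [← heq]; exact hne t)
    rw [← heq] at h2
    exact absurd (hs t) (not_le.mpr h2)

/-- **No small non-zero form, with constant term.** -/
theorem goodII {b : ℕ} (hb : 2 ≤ b) : ∀ m, GoodII b m := by
  intro m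
  have hbR : (2 : ℝ) ≤ b := by exact_mod_cast hb
  have hb0 : (0 : ℝ) < b := by linarith
  have hlogb : 0 < Real.log b := Real.log_pos (by linarith)
  induction m with
  | zero =>
    intro β _ δ hδ
    refine ⟨1, one_pos, 1, ?_⟩
    intro L hL e lam _ P hne
    simp only [univ_eq_empty, sum_empty, zero_sub, ne_eq, neg_eq_zero] at hne
    simp only [univ_eq_empty, sum_empty, zero_sub, abs_neg]
    have h1 : (1 : ℝ) ≤ |(P : ℝ)| := by
      have : P ≠ 0 := by exact_mod_cast hne
      exact_mod_cast Int.one_le_abs this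
    refine lt_of_lt_of_le ?_ h1
    rw [Real.exp_lt_one_iff]
    have : (0 : ℝ) < L := by exact_mod_cast hL
    have : 0 < δ * (L * Real.log b) := by positivity
    linarith
  | succ m ih =>
    intro β hβ δ0 hδ0
    set δ : ℝ := min δ0 1 with hδd
    have hδ : 0 < δ := lt_min hδ0 one_pos
    have hδ1 : δ ≤ 1 := min_le_right _ _
    have hδ2 : δ ≤ δ0 := min_le_left _ _
    by_contra hcon
    push Not at hcon
    have hseq : ∀ t : ℕ, ∃ L : ℕ, t + 1 ≤ L ∧ ∃ (e : Fin (m + 1) → ℕ) (lam : Fin (m + 1) → ℤ),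
        Dat b (m + 1) δ (min (δ / (2 * ((m + 1 : ℕ) + 1))) (1 / (t + 1))) L e lam ∧ ∃ P : ℤ,
        ∑ j, β j * ((lam j : ℝ) * (b : ℝ) ^ (e j)) - P ≠ 0 ∧
        |∑ j, β j * ((lam j : ℝ) * (b : ℝ) ^ (e j)) - P| ≤ Real.exp (-(δ * (L * Real.log b))) := by
      intro t
      obtain ⟨L, hL, e, lam, h1, P, h2, h3⟩ :=
        hcon (min (δ / (2 * ((m + 1 : ℕ) + 1))) (1 / (t + 1)))
        (lt_min (by positivity) (by positivity)) (t + 1)
      refine ⟨L, hL, e, lam, h1.mono hb hδ2 le_rfl, P, h2, h3.trans ?_⟩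
      apply Real.exp_le_exp.mpr
      have : 0 ≤ (L : ℝ) * Real.log b := by positivity
      nlinarith
    choose L hL e lam hD P hne hs using hseq
    obtain ⟨y, y0, hy, hfr⟩ := relII hb β hβ δ hδ hδ1 L hL e lam P
      (fun t => (hD t).mono hb le_rfl (min_le_left _ _)) hne hs
    by_cases hy1 : y = 0
    · -- the constant term vanishes
      have hy0 : y0 ≠ 0 := by
        rcases hy with h | h
        · exact absurd hy1 h
        · exact h
      obtain ⟨ε', hε', L1, h1⟩ := goodI hb (m + 1) β hβ δ hδ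
      obtain ⟨t, ht, ht2⟩ := (hfr.and_eventually (eventually_ge_atTop (max L1 ⌈1 / ε'⌉₊))).exists
      have hε : 1 / ((t : ℝ) + 1) ≤ ε' := by
        have h2 : 1 / ε' ≤ t := by
          refine (Nat.le_ceil _).trans ?_
          exact_mod_cast (le_max_right _ _).trans ht2
        rw [div_le_iff₀ (by positivity)]
        rw [div_le_iff₀ hε'] at h2
        nlinarith
      have hLL : L1 ≤ L t := ((le_max_left _ _).trans ht2).trans ((Nat.le_succ t).trans (hL t))
      have hP : P t = 0 := by
        rw [hy1] at ht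
        simp only [Pi.zero_apply, Int.cast_zero, zero_mul, sum_const_zero, zero_add,
          mul_eq_zero, Int.cast_eq_zero] at ht
        exact ht.resolve_left hy0
      have h3 := hne t
      have h4 := hs t
      rw [hP, Int.cast_zero, sub_zero] at h3 h4
      have h2 := h1 (L t) hLL (e t) (lam t) ((hD t).mono hb le_rfl ((min_le_right _ _).trans hε)) h3
      exact absurd h4 (not_le.mpr h2)
    · obtain ⟨j1, hj1⟩ : ∃ j1, y j1 ≠ 0 := by
        by_contra h
        push Not at h
        exact hy1 (funext h)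
      set β' : Fin m → ℝ := fun i => β (j1.succAbove i) - β j1 * y (j1.succAbove i) / y j1 with hβ'
      have hβ'alg : ∀ i, IsAlgebraic ℚ (β' i) := alg_elim hβ y j1
      set κ : ℝ := 1 + β j1 / y j1 * y0 with hκ
      have heq : ∀ t, ∑ j, (y j : ℝ) * ((lam t j : ℝ) * (b : ℝ) ^ (e t j)) + y0 * P t = 0 →
          ∑ j, β j * ((lam t j : ℝ) * (b : ℝ) ^ (e t j)) - P t =
          ∑ i, β' i * ((lam t (j1.succAbove i) : ℝ) * (b : ℝ) ^ (e t (j1.succAbove i))) -
            κ * P t := by
        intro t ht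
        have h := elim_var β y j1 hj1 (fun j => (lam t j : ℝ) * (b : ℝ) ^ (e t j))
          (-(y0 * P t)) (by linarith)
        rw [h, hκ, hβ']
        ring
      by_cases hκ0 : κ = 0
      · obtain ⟨ε', hε', L1, h1⟩ := goodI hb m β' hβ'alg δ hδ
        obtain ⟨t, ht, ht2⟩ := (hfr.and_eventually (eventually_ge_atTop (max L1 ⌈1 / ε'⌉₊))).exists
        have hε : 1 / ((t : ℝ) + 1) ≤ ε' := by
          have h2 : 1 / ε' ≤ t := by
            refine (Nat.le_ceil _).trans ?_
            exact_mod_cast (le_max_right _ _).trans ht2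
          rw [div_le_iff₀ (by positivity)]
          rw [div_le_iff₀ hε'] at h2
          nlinarith
        have hLL : L1 ≤ L t := ((le_max_left _ _).trans ht2).trans ((Nat.le_succ t).trans (hL t))
        have h5 := heq t ht
        rw [hκ0, zero_mul, sub_zero] at h5
        have h2 := h1 (L t) hLL (fun i => e t (j1.succAbove i)) (fun i => lam t (j1.succAbove i))
          (((hD t).mono hb le_rfl ((min_le_right _ _).trans hε)).comp _)
          (by rw [← h5]; exact hne t)
        rw [← h5] at h2
        exact absurd (hs t) (not_le.mpr h2)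
      · have hκalg : IsAlgebraic ℚ κ := by
          rw [hκ]
          refine isAlgebraic_one.add ?_
          have h2 := ((hβ j1).mul ((isAlgebraic_intCast (R := ℚ) (A := ℝ) (y j1)).inv)).mul
            (isAlgebraic_intCast (R := ℚ) (A := ℝ) y0)
          rw [← div_eq_mul_inv] at h2
          exact h2
        obtain ⟨ε', hε', L1, h1⟩ := ih (fun i => β' i / κ)
          (fun i => by rw [div_eq_mul_inv]; exact (hβ'alg i).mul hκalg.inv) (δ / 2) (by positivity)
        -- the constant is harmless
        obtain ⟨L2, hL2⟩ : ∃ L2 : ℕ, ∀ L : ℕ, L2 ≤ L →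
            Real.exp (-(δ / 2 * (L * Real.log b))) ≤ |κ| := by
          have hκpos : 0 < |κ| := abs_pos.2 hκ0
          refine ⟨⌈-Real.log |κ| / (δ / 2 * Real.log b)⌉₊, ?_⟩
          intro L hL
          rw [← Real.le_log_iff_exp_le hκpos]
          have h2 : -Real.log |κ| / (δ / 2 * Real.log b) ≤ L :=
            (Nat.le_ceil _).trans (by exact_mod_cast hL)
          rw [div_le_iff₀ (by positivity)] at h2
          nlinarith
        obtain ⟨t, ht, ht2⟩ := (hfr.and_eventually
          (eventually_ge_atTop (max (max L1 L2) ⌈1 / ε'⌉₊))).exists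
        have hε : 1 / ((t : ℝ) + 1) ≤ ε' := by
          have h2 : 1 / ε' ≤ t := by
            refine (Nat.le_ceil _).trans ?_
            exact_mod_cast (le_max_right _ _).trans ht2
          rw [div_le_iff₀ (by positivity)]
          rw [div_le_iff₀ hε'] at h2
          nlinarith
        have hLL1 : L1 ≤ L t := ((le_max_left _ _).trans ((le_max_left _ _).trans ht2)).trans
          ((Nat.le_succ t).trans (hL t))
        have hLL2 : L2 ≤ L t := ((le_max_right _ _).trans ((le_max_left _ _).trans ht2)).trans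
          ((Nat.le_succ t).trans (hL t))
        have h5 := heq t ht
        have h6 : ∑ i, β' i / κ * ((lam t (j1.succAbove i) : ℝ) *
            (b : ℝ) ^ (e t (j1.succAbove i))) - P t =
            (∑ j, β j * ((lam t j : ℝ) * (b : ℝ) ^ (e t j)) - P t) / κ := by
          rw [h5, sub_div, mul_div_assoc, mul_comm κ, div_mul_cancel₀ _ hκ0, Finset.sum_div]
          congr 1
          apply Finset.sum_congr rfl
          intro i _
          ring
        have h2 := h1 (L t) hLL1 (fun i => e t (j1.succAbove i))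
          (fun i => lam t (j1.succAbove i))
          (((hD t).mono hb (by linarith) ((min_le_right _ _).trans hε)).comp _) (P t)
          (by rw [h6]; exact div_ne_zero (hne t) hκ0)
        rw [h6, abs_div, lt_div_iff₀ (abs_pos.2 hκ0)] at h2
        have h7 : Real.exp (-(δ * (L t * Real.log b))) ≤
            Real.exp (-(δ / 2 * (L t * Real.log b))) * |κ| := by
          calc Real.exp (-(δ * (L t * Real.log b))) =
              Real.exp (-(δ / 2 * (L t * Real.log b))) *
                Real.exp (-(δ / 2 * (L t * Real.log b))) := by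
                rw [← Real.exp_add]; congr 1; ring
            _ ≤ _ := mul_le_mul_of_nonneg_left (hL2 _ hLL2) (Real.exp_pos _).le
        exact absurd (hs t) (not_le.mpr (lt_of_le_of_lt h7 h2))

end Pool.Agent.Q164.JW
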