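import Mathlib
import Pool.Agent.Q164.JW.Small2
import Pool.Agent.H352.Win.Expansion

/-!
# Several expansions: short integer relations between shifts of the digits
-/

set_option autoImplicit false

open Finset Polynomial

namespace Pool.Agent.Q164.JW

open Pool.Agent.H648R2.S

/-- enumeration of a small finite set, padded by zeros -/
lemma pad (D : ℕ) : ∀ (S : Finset ℕ), S.card ≤ D → ∀ g : ℕ → ℤ, ∃ (f : Fin D → ℕ)
    (a : Fin D → ℤ), (∀ j, (f j = 0 ∧ a j = 0) ∨ (f j ∈ S ∧ a j = g (f j))) ∧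
    ∀ w : ℕ → ℤ, ∑ j, a j * w (f j) = ∑ i ∈ S, g i * w i := by
  classical
  induction D with
  | zero =>
    intro S hS g
    have h : S = ∅ := Finset.card_eq_zero.1 (by omega)
    subst h
    exact ⟨Fin.elim0, Fin.elim0, fun j => j.elim0, fun w => by simp⟩
  | succ D ih =>
    intro S hS g
    rcases S.eq_empty_or_nonempty with h | ⟨i0, hi0⟩
    · subst h
      exact ⟨fun _ => 0, fun _ => 0, fun j => .inl ⟨rfl, rfl⟩, fun w => by simp⟩
    · obtain ⟨f, a, h1, h2⟩ := ih (S.erase i0) (by rw [Finset.card_erase_of_mem hi0]; omega) g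
      refine ⟨Fin.cons i0 f, Fin.cons (g i0) a, ?_, ?_⟩
      · intro j
        refine Fin.cases ?_ (fun j => ?_) j
        · right
          exact ⟨by simpa using hi0, by simp⟩
        · simp only [Fin.cons_succ]
          rcases h1 j with h | h
          · exact .inl h
          · exact .inr ⟨Finset.mem_of_mem_erase h.1, h.2⟩
      · intro w
        rw [Fin.sum_univ_succ]
        simp only [Fin.cons_zero, Fin.cons_succ]
        rw [h2 w, Finset.add_sum_erase S (fun i => g i * w i) hi0]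

/-- the subspace theorem for the values of sparse polynomials at `b` -/
theorem mergeN {b : ℕ} (hb : 2 ≤ b) {N : ℕ} (ξ : Fin N → ℝ) (halg : ∀ k, IsAlgebraic ℚ (ξ k))
    (hind : ∀ (c : Fin N → ℤ) (c0 : ℤ), ∑ k, ξ k * (c k : ℝ) = c0 → c = 0)
    (D H : ℕ) (δ : ℝ) (hδ : 0 < δ) :
    ∃ L0 : ℕ, ∀ L : ℕ, L0 ≤ L → ∀ Q : Fin N → ℤ[X], (∀ k, (Q k).support.card ≤ D) →
      (∀ k i, |(Q k).coeff i| ≤ H) → (∀ k, δ * (L + (Q k).natDegree) ≤ L) →
      (∃ k, (Q k).eval (b : ℤ) ≠ 0) →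
      ∀ P : ℤ, Real.exp (-(δ * (L * Real.log b))) <
        |∑ k, ξ k * (((b : ℤ) ^ L * (Q k).eval (b : ℤ) : ℤ) : ℝ) - P| := by
  classical
  have hbR : (2 : ℝ) ≤ b := by exact_mod_cast hb
  have hb0 : (0 : ℝ) < b := by linarith
  have hlogb : 0 < Real.log b := Real.log_pos (by linarith)
  obtain ⟨ε, hε, L1, h1⟩ := goodII hb (N * D) (fun q => ξ (finProdFinEquiv.symm q).1)
    (fun q => halg _) δ hδ
  refine ⟨max L1 ⌈(H : ℝ) / (ε * Real.log b)⌉₊, ?_⟩
  intro L hL Q hQD hQH hdeg hev P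
  have hL1 : L1 ≤ L := (le_max_left _ _).trans hL
  have hL2 : (H : ℝ) / (ε * Real.log b) ≤ L := by
    refine le_trans (Nat.le_ceil _) ?_
    exact_mod_cast le_trans (le_max_right _ _) hL
  have hHexp : (H : ℝ) ≤ Real.exp (ε * (L * Real.log b)) := by
    rw [div_le_iff₀ (mul_pos hε hlogb)] at hL2
    have h2 : ε * (L * Real.log b) = L * (ε * Real.log b) := by ring
    rw [h2]
    have h3 := Real.add_one_le_exp (L * (ε * Real.log b))
    linarith
  choose f a hfa hsum using fun k => pad D (Q k).support (hQD k) (fun i => (Q k).coeff i)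
  have hLpos : δ * L ≤ L := by
    rcases Nat.eq_zero_or_pos N with h | h
    · subst h
      obtain ⟨k, _⟩ := hev
      exact k.elim0
    · have := hdeg ⟨0, h⟩
      have h2 : (0 : ℝ) ≤ ((Q ⟨0, h⟩).natDegree : ℝ) := Nat.cast_nonneg _
      nlinarith
  have hval : ∀ k, ∑ j, a k j * (b : ℤ) ^ (L + f k j) = (b : ℤ) ^ L * (Q k).eval (b : ℤ) := by
    intro k
    have := hsum k (fun i => (b : ℤ) ^ (L + i))
    rw [this, eval_eq_sum, Polynomial.sum_def, Finset.mul_sum]
    apply Finset.sum_congr rfl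
    intro i _
    rw [pow_add]; ring
  have hsumR : ∑ q : Fin (N * D), ξ (finProdFinEquiv.symm q).1 *
      ((a (finProdFinEquiv.symm q).1 (finProdFinEquiv.symm q).2 : ℝ) *
        (b : ℝ) ^ (L + f (finProdFinEquiv.symm q).1 (finProdFinEquiv.symm q).2)) =
      ∑ k, ξ k * (((b : ℤ) ^ L * (Q k).eval (b : ℤ) : ℤ) : ℝ) := by
    rw [Equiv.sum_comp finProdFinEquiv.symm (fun q : Fin N × Fin D => ξ q.1 *
      ((a q.1 q.2 : ℝ) * (b : ℝ) ^ (L + f q.1 q.2))), Fintype.sum_prod_type]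
    apply Finset.sum_congr rfl
    intro k _
    rw [← hval k]
    push_cast
    rw [Finset.mul_sum]
  have hex : ∀ k j, δ * ((L + f k j : ℕ) : ℝ) ≤ L := by
    intro k j
    push_cast
    rcases hfa k j with h | h
    · rw [h.1, Nat.cast_zero, add_zero]
      exact hLpos
    · refine le_trans ?_ (hdeg k)
      apply mul_le_mul_of_nonneg_left _ hδ.le
      have : ((f k j : ℕ) : ℝ) ≤ (Q k).natDegree := by
        exact_mod_cast le_natDegree_of_mem_supp _ h.1
      linarith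
  have hco : ∀ k j, |(a k j : ℝ)| ≤ Real.exp (ε * (L * Real.log b)) := by
    intro k j
    refine le_trans ?_ hHexp
    rcases hfa k j with h | h
    · rw [h.2, Int.cast_zero, abs_zero]
      exact Nat.cast_nonneg _
    · rw [h.2]
      exact_mod_cast hQH k _
  have h2 := h1 L hL1 (fun q => L + f (finProdFinEquiv.symm q).1 (finProdFinEquiv.symm q).2)
    (fun q => a (finProdFinEquiv.symm q).1 (finProdFinEquiv.symm q).2)
    ⟨fun q => Nat.le_add_right _ _, fun q => hex _ _, fun q => hco _ _⟩ P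
    (by
      rw [hsumR]
      intro h0
      have h3 := hind (fun k => (b : ℤ) ^ L * (Q k).eval (b : ℤ)) P (by linarith)
      obtain ⟨k, hk⟩ := hev
      have h4 := congrFun h3 k
      simp only [Pi.zero_apply] at h4
      have hb0Z : (b : ℤ) ≠ 0 := by omega
      exact mul_ne_zero (pow_ne_zero _ hb0Z) hk h4)
  rw [hsumR] at h2
  exact h2

/-- one division step: the quotients kill a slightly shorter window -/
lemma window_divN {b : ℕ} (hb : 2 ≤ b) {N : ℕ} {P Q : Fin N → ℤ[X]}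
    (h : ∀ k, P k = (X - C (b : ℤ)) * Q k) (D H B : ℕ)
    (hD : ∀ k, (Q k).support.card ≤ D) (hH : ∀ k i, |(Q k).coeff i| ≤ H)
    (c : Fin N → ℕ → ℤ) (hB : ∀ k n, |c k n| ≤ B)
    (m : ℕ) (hP : ∀ n, 1 ≤ n → n ≤ m → ∑ k, act (P k) (c k) n = 0) :
    ∀ n, 1 ≤ n → n ≤ m - (N * (D * H * B)) → ∑ k, act (Q k) (c k) n = 0 := by
  intro n hn1 hn2
  have hbZ : (2 : ℤ) ≤ b := by exact_mod_cast hb
  have hrec : ∀ i, 1 ≤ i → i ≤ m → ∑ k, act (Q k) (c k) (i + 1) =
      b * ∑ k, act (Q k) (c k) i := by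
    intro i hi1 hi2
    have h1 := hP i hi1 hi2
    have h2 : ∀ k, act (P k) (c k) i = act (Q k) (c k) (i + 1) - b * act (Q k) (c k) i := by
      intro k
      rw [h k, act_mul, act_X_sub_C, smul_eq_mul]
    rw [Finset.sum_congr rfl fun k _ => h2 k, Finset.sum_sub_distrib, ← Finset.mul_sum] at h1
    linarith
  have hup : ∀ j, n + j ≤ m + 1 → ∑ k, act (Q k) (c k) (n + j) =
      b ^ j * ∑ k, act (Q k) (c k) n := by
    intro j
    induction j with
    | zero => intro _; simp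
    | succ j ih =>
      intro hj
      have h1 := hrec (n + j) (by omega) (by omega)
      rw [← add_assoc, h1, ih (by omega), pow_succ]; ring
  by_contra hne
  have h1 : 1 ≤ |∑ k, act (Q k) (c k) n| := Int.one_le_abs hne
  have h2 := hup (m + 1 - n) (by omega)
  have h3 : |∑ k, act (Q k) (c k) (n + (m + 1 - n))| ≤ (N * (D * H * B) : ℕ) := by
    refine (Finset.abs_sum_le_sum_abs _ _).trans ?_
    have h4 : ∀ k ∈ (Finset.univ : Finset (Fin N)), |act (Q k) (c k) (n + (m + 1 - n))| ≤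
        ((D * H * B : ℕ) : ℤ) := by
      intro k _
      have h4 := abs_act_le (Q k) (fun i => (c k i : ℝ)) D H B (hD k) (hH k)
        (fun i => by exact_mod_cast hB k i) (n + (m + 1 - n))
      rw [act_cast] at h4
      exact_mod_cast h4
    refine (Finset.sum_le_card_nsmul _ _ _ h4).trans ?_
    rw [Finset.card_univ, Fintype.card_fin, nsmul_eq_mul]
    push_cast
    exact le_rfl
  rw [h2, abs_mul, abs_pow, abs_of_nonneg (by omega : (0 : ℤ) ≤ b)] at h3
  have h5 : N * (D * H * B) < b ^ (m + 1 - n) := by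
    refine lt_of_lt_of_le (Nat.lt_pow_self (by omega : 1 < b)) ?_
    apply Nat.pow_le_pow_right (by omega)
    by_contra hcon
    push Not at hcon
    have : m - N * (D * H * B) = 0 ∨ n + N * (D * H * B) ≤ m := by omega
    omega
  have h6 : ((N * (D * H * B) : ℕ) : ℤ) < (b : ℤ) ^ (m + 1 - n) := by exact_mod_cast h5
  nlinarith

/-- removing all common factors `X - b` -/
lemma elimN {b : ℕ} (hb : 2 ≤ b) (N H B : ℕ) : ∀ r D : ℕ, ∃ D' K : ℕ,
    ∀ (c : Fin N → ℕ → ℤ), (∀ k n, |c k n| ≤ B) → ∀ (m : ℕ) (P : Fin N → ℤ[X]),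
    (∀ k, (P k).support.card ≤ D) → (∀ k i, |(P k).coeff i| ≤ H) →
    (∃ k a, (P k).coeff a ≠ 0 ∧ (∀ i, i < a → (P k).coeff i = 0) ∧
      |(P k).coeff a| < (b : ℤ) ^ r) →
    (∀ n, 1 ≤ n → n ≤ m → ∑ k, act (P k) (c k) n = 0) →
    ∃ Q : Fin N → ℤ[X], (∀ k, (Q k).support.card ≤ D') ∧ (∀ k i, |(Q k).coeff i| ≤ H) ∧
      (∀ k, (Q k).natDegree ≤ (P k).natDegree) ∧
      (∃ k, (Q k).eval (b : ℤ) ≠ 0) ∧ ∀ n, 1 ≤ n → n ≤ m - K → ∑ k, act (Q k) (c k) n = 0 := by
  have hbZ : (2 : ℤ) ≤ b := by exact_mod_cast hb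
  intro r
  induction r with
  | zero =>
    intro D
    refine ⟨0, 0, ?_⟩
    intro c _ m P _ _ ⟨k, a, ha, _, ha2⟩ _
    exfalso
    rw [pow_zero] at ha2
    have := Int.one_le_abs ha
    omega
  | succ r ih =>
    intro D
    obtain ⟨D1, K1, h1⟩ := ih (D * H)
    refine ⟨max D D1, N * ((D * H) * H * B) + K1, ?_⟩
    intro c hc m P hD hH ⟨k0, a, ha, haz, ha2⟩ hP
    by_cases hev : ∀ k, (P k).eval (b : ℤ) = 0
    · choose Q hQ using fun k => dvd_iff_isRoot.2 (show IsRoot (P k) (b : ℤ) from hev k)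
      have hQH : ∀ k i, |(Q k).coeff i| ≤ H := fun k => quot_bound hb (hQ k) H (hH k)
      have hQD : ∀ k, (Q k).support.card ≤ D * H := fun k =>
        (quot_supp hb (hQ k) H (hH k)).trans (Nat.mul_le_mul_right _ (hD k))
      obtain ⟨hl1, hl2⟩ := quot_low hb (hQ k0) a haz
      have hwin := window_divN hb hQ (D * H) H B hQD hQH c hc m hP
      obtain ⟨Q', hq1, hq2, hq3, hq4, hq5⟩ := h1 c hc (m - N * ((D * H) * H * B)) Q hQD hQH
        ⟨k0, a, by
          intro h0
          rw [h0, mul_zero] at hl2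
          exact ha (by linarith), hl1, by
          have h3 : |(b : ℤ) * (Q k0).coeff a| < (b : ℤ) ^ (r + 1) := by
            rw [hl2, abs_neg]; exact ha2
          rw [abs_mul, abs_of_nonneg (by omega : (0 : ℤ) ≤ b), pow_succ'] at h3
          exact lt_of_mul_lt_mul_left h3 (by omega)⟩ hwin
      refine ⟨Q', fun k => (hq1 k).trans (le_max_right _ _), hq2, fun k => (hq3 k).trans ?_,
        hq4, ?_⟩
      · by_cases hQ0 : Q k = 0
        · rw [hQ0]; simp
        · rw [hQ k, natDegree_mul (X_sub_C_ne_zero _) hQ0]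
          omega
      · intro n hn1 hn2
        exact hq5 n hn1 (by omega)
    · push Not at hev
      exact ⟨P, fun k => (hD k).trans (le_max_left _ _), hH, fun k => le_rfl, hev,
        fun n hn1 hn2 => hP n hn1 (by omega)⟩

/-- **Core theorem for several numbers.** -/
theorem coreN {b : ℕ} (hb : 2 ≤ b) {N : ℕ} (ξ : Fin N → ℝ) (halg : ∀ k, IsAlgebraic ℚ (ξ k))
    (hind : ∀ (c : Fin N → ℤ) (c0 : ℤ), ∑ k, ξ k * (c k : ℝ) = c0 → c = 0)
    (B D H C : ℕ) :
    ∃ M : ℕ, ∀ (c : Fin N → ℕ → ℤ) (x : Fin N → ℕ → ℝ), (∀ k n, |c k n| ≤ B) →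
      (∀ k n, |x k n| ≤ B) → (∀ k n, (b : ℝ) * x k n = c k (n + 1) + x k (n + 1)) →
      (∀ k n, ∃ i : ℤ, ξ k * (b : ℝ) ^ n - x k n = i) →
      ∀ m : ℕ, M ≤ m → ∀ P : Fin N → ℤ[X], (∃ k, P k ≠ 0) → (∀ k, (P k).support.card ≤ D) →
      (∀ k i, |(P k).coeff i| ≤ H) → (∀ k, (P k).natDegree ≤ C * m) →
      ∃ n, 1 ≤ n ∧ n ≤ m ∧ ∑ k, act (P k) (c k) n ≠ 0 := by
  have hbR : (2 : ℝ) ≤ b := by exact_mod_cast hb
  have hb0 : (0 : ℝ) < b := by linarith
  have hlogb : 0 < Real.log b := Real.log_pos (by linarith)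
  obtain ⟨D', K, helim⟩ := elimN hb N H B H D
  set δ : ℝ := 1 / (3 * C + 2) with hδ
  have hδ0 : 0 < δ := by rw [hδ]; positivity
  obtain ⟨L0, hmerge⟩ := mergeN hb ξ halg hind D' H δ hδ0
  set G : ℕ := N * (D' * H * B) with hG
  refine ⟨2 * (L0 + 2 * (K + G) + 2), ?_⟩
  intro c x hc hx hrec hint m hm P hP0 hPD hPH hPdeg
  by_contra hcon
  push Not at hcon
  obtain ⟨Q, hQD, hQH, hQdeg, hev, hQ⟩ := helim c hc m P hPD hPH
    (by
      obtain ⟨k, hk⟩ := hP0
      refine ⟨k, (P k).natTrailingDegree, ?_, ?_, ?_⟩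
      · exact trailingCoeff_nonzero_iff_nonzero.2 hk
      · intro i hi
        exact coeff_eq_zero_of_lt_natTrailingDegree hi
      · refine lt_of_le_of_lt (hPH _ _) ?_
        have : H < b ^ H := Nat.lt_pow_self (by omega)
        exact_mod_cast this)
    (fun n h1 h2 => hcon n h1 h2)
  set L : ℕ := m / 2 with hL
  have hLm : 2 * L ≤ m := by omega
  have hLm' : m ≤ 2 * L + 1 := by omega
  have hLL0 : L0 + 2 * (K + G) + 1 ≤ L := by omega
  have hdeg : ∀ k, (Q k).natDegree ≤ C * (2 * L + 1) := fun k =>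
    (hQdeg k).trans ((hPdeg k).trans (Nat.mul_le_mul_left _ hLm'))
  have hL1 : 1 ≤ L := by omega
  have hδdeg : ∀ k, δ * (L + (Q k).natDegree) ≤ L := by
    intro k
    have h1 : ((Q k).natDegree : ℝ) ≤ C * (2 * L + 1) := by exact_mod_cast hdeg k
    have h2 : (1 : ℝ) ≤ L := by exact_mod_cast hL1
    have h3 : (0 : ℝ) ≤ C := Nat.cast_nonneg _
    rw [hδ, div_mul_eq_mul_div, one_mul, div_le_iff₀ (by positivity)]
    nlinarith
  -- the real tail
  have hrec' : ∀ n, (b : ℝ) * ∑ k, act (Q k) (x k) n =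
      ((∑ k, act (Q k) (c k) (n + 1) : ℤ) : ℝ) + ∑ k, act (Q k) (x k) (n + 1) := by
    intro n
    have h3 : ∀ k, (b : ℝ) * act (Q k) (x k) n =
        ((act (Q k) (c k) (n + 1) : ℤ) : ℝ) + act (Q k) (x k) (n + 1) := by
      intro k
      have h1 : (b : ℤ) • x k = (fun i => ((c k (i + 1) : ℤ) : ℝ)) + fun i => x k (i + 1) := by
        funext i
        simp only [Pi.smul_apply, Pi.add_apply, zsmul_eq_mul]
        push_cast
        exact hrec k i
      have h2 := congrFun (congrArg (act (Q k)) h1) n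
      rw [act_zsmul, act_add, Pi.smul_apply, Pi.add_apply, zsmul_eq_mul,
        act_E (Q k) (fun i => ((c k i : ℤ) : ℝ)) n, act_E, act_cast] at h2
      push_cast at h2
      exact h2
    rw [Finset.mul_sum, Finset.sum_congr rfl fun k _ => h3 k, Finset.sum_add_distrib]
    push_cast
    rfl
  have hup : ∀ j, L + j ≤ m - K → (b : ℝ) ^ j * ∑ k, act (Q k) (x k) L =
      ∑ k, act (Q k) (x k) (L + j) := by
    intro j
    induction j with
    | zero => intro _; simp
    | succ j ih =>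
      intro hj
      have h1 := ih (by omega)
      have h2 := hrec' (L + j)
      rw [hQ (L + j + 1) (by omega) (by omega)] at h2
      rw [pow_succ', mul_assoc, h1, h2]
      simp [add_assoc]
  have habs : ∀ n, |∑ k, act (Q k) (x k) n| ≤ G := by
    intro n
    refine (Finset.abs_sum_le_sum_abs _ _).trans ?_
    have h4 : ∀ k ∈ (Finset.univ : Finset (Fin N)), |act (Q k) (x k) n| ≤
        ((D' * H * B : ℕ) : ℝ) := by
      intro k _
      exact abs_act_le (Q k) (x k) D' H B (hQD k) (hQH k) (hx k) n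
    refine (Finset.sum_le_card_nsmul _ _ _ h4).trans ?_
    rw [Finset.card_univ, Fintype.card_fin, nsmul_eq_mul, hG]
    push_cast
    exact le_rfl
  have hb1 : |∑ k, act (Q k) (x k) L| * (b : ℝ) ^ (m - K - L) ≤ G := by
    have h1 := hup (m - K - L) (by omega)
    have h2 := habs (L + (m - K - L))
    rw [← h1, abs_mul, abs_of_pos (by positivity : (0 : ℝ) < (b : ℝ) ^ (m - K - L))] at h2
    rw [mul_comm]
    exact h2
  -- the integer
  choose kk hkk using hint
  have hintQ : ∑ k, ξ k * (((b : ℤ) ^ L * (Q k).eval (b : ℤ) : ℤ) : ℝ) -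
      ∑ k, act (Q k) (x k) L = ((∑ k, act (Q k) (kk k) L : ℤ) : ℝ) := by
    push_cast
    rw [← Finset.sum_sub_distrib]
    apply Finset.sum_congr rfl
    intro k _
    have h1 : (fun n => ξ k * (b : ℝ) ^ n) = x k + fun n => ((kk k n : ℤ) : ℝ) := by
      funext n
      simp only [Pi.add_apply]
      rw [← hkk k n]; ring
    have h2 := congrFun (congrArg (act (Q k)) h1) L
    rw [act_add, Pi.add_apply, act_cast] at h2
    have h2' : act (Q k) (fun n => ξ k * (b : ℝ) ^ n) L =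
        ξ k * ((b : ℝ) ^ L * (((Q k).eval (b : ℤ) : ℤ) : ℝ)) := by
      rw [act_eq, eval_eq_sum, Polynomial.sum_def]
      push_cast
      rw [Finset.mul_sum, Finset.mul_sum]
      apply Finset.sum_congr rfl
      intro i _
      rw [zsmul_eq_mul, pow_add]; ring
    rw [h2'] at h2
    linarith
  have h3 := hmerge L (by omega) Q hQD hQH hδdeg hev (∑ k, act (Q k) (kk k) L)
  rw [← hintQ] at h3
  rw [sub_sub_cancel] at h3
  have hpow : (b : ℝ) ^ (m - K - L) = Real.exp (((m - K - L : ℕ) : ℝ) * Real.log b) :=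
    pow_eq_exp hb _
  have hGexp : (G : ℝ) ≤ Real.exp (G * Real.log b) := by
    rw [← pow_eq_exp hb]
    have : G < b ^ G := Nat.lt_pow_self (by omega)
    exact_mod_cast this.le
  have h6 : Real.exp (-(δ * (L * Real.log b))) * (b : ℝ) ^ (m - K - L) < G :=
    lt_of_lt_of_le (mul_lt_mul_of_pos_right h3 (by positivity)) hb1
  rw [hpow, ← Real.exp_add] at h6
  have h7 := lt_of_lt_of_le h6 hGexp
  rw [Real.exp_lt_exp] at h7
  have h8 : ((m - K - L : ℕ) : ℝ) ≥ L - K := by
    have h9 : L ≤ (m - K - L) + K := by omega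
    have h10 : (L : ℝ) ≤ ((m - K - L : ℕ) : ℝ) + K := by exact_mod_cast h9
    linarith
  have h9 : δ ≤ 1 / 2 := by
    rw [hδ]
    apply div_le_div_of_nonneg_left (by norm_num) (by norm_num)
    have : (0 : ℝ) ≤ C := Nat.cast_nonneg _
    linarith
  have h10 : (2 * (K + G) : ℝ) + 1 ≤ L := by
    have : 2 * (K + G) + 1 ≤ L := by omega
    exact_mod_cast this
  have h11 : 0 < (((m - K - L : ℕ) : ℝ) - δ * L - G) := by
    have : δ * L ≤ 1 / 2 * L := mul_le_mul_of_nonneg_right h9 (Nat.cast_nonneg _)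
    linarith
  have h12 := mul_pos h11 hlogb
  nlinarith

end Pool.Agent.Q164.JW
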