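import Mathlib
import Pool.Agent.Q164.JW.Core

/-!
# Windows of several expansions
-/

set_option autoImplicit false

open Finset Polynomial

namespace Pool.Agent.Q164.JW

open Pool.Agent.H648R2.S

/-- **Windows of several numbers.** -/
theorem generalN {b : ℕ} (hb : 2 ≤ b) {N : ℕ} (ξ : Fin N → ℝ) (halg : ∀ k, IsAlgebraic ℚ (ξ k))
    (hind : ∀ (c : Fin N → ℤ) (c0 : ℤ), ∑ k, ξ k * (c k : ℝ) = c0 → c = 0)
    (B D E K C : ℕ) (ε : ℝ) (hε : 0 < ε) :
    ∃ M : ℕ, ∀ (c : Fin N → ℕ → ℤ) (x : Fin N → ℕ → ℝ), (∀ k n, |c k n| ≤ B) →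
      (∀ k n, |x k n| ≤ B) → (∀ k n, (b : ℝ) * x k n = c k (n + 1) + x k (n + 1)) →
      (∀ k n, ∃ i : ℤ, ξ k * (b : ℝ) ^ n - x k n = i) →
      ∀ m : ℕ, M ≤ m → ∀ (q : Fin D → Fin N) (t : Fin D → ℕ),
      Function.Injective (fun j => (q j, t j)) → (∀ j, t j ≤ C * m) →
      ∀ lam : Fin D → ℝ, lam ≠ 0 → ∀ p : Fin E → ℕ, (∀ l, 0 < p l) →
      ((∑ l, p l : ℕ) : ℝ) ≤ (1 - ε) * m / (K + 1) →
      ∀ f : Fin E → ℕ → ℝ, (∀ l n, f l (n + p l) = f l n) →
      K < ((Finset.range m).filter
        (fun i => ∑ j, lam j * (c (q j) (t j + i + 1) : ℝ) ≠ ∑ l, f l i)).card := by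
  classical
  obtain ⟨T, hT⟩ := exists_nat_gt (1 / ε)
  have hT0 : 0 < T := by
    rcases Nat.eq_zero_or_pos T with h | h
    · rw [h, Nat.cast_zero] at hT
      have : 0 < 1 / ε := by positivity
      linarith
    · exact h
  set R : ℕ := 2 * T * (K + 1) with hR
  have hR0 : 0 < R := by rw [hR]; positivity
  obtain ⟨H, hH⟩ := uniform_rel D (2 ^ E * (2 ^ E * B))
  obtain ⟨M, hM⟩ := coreN hb ξ halg hind B (D * 2 ^ E) (D * (H * 2 ^ E)) (2 * R * (C + 2))
  refine ⟨R * (M + 1), ?_⟩
  intro c x hc hx hrec hint m hm q t ht htC lam hlam p hp hsum f hf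
  by_contra hcon
  push Not at hcon
  obtain ⟨h1, h2, h3, h4⟩ := perPoly_props E p hp
  set w : ℕ := m / (K + 1) with hw
  set m' : ℕ := m / R with hm'
  have hm'1 : m' * R ≤ m := Nat.div_mul_le_self _ _
  have hm'2 : m < (m' + 1) * R := by
    have := Nat.lt_div_mul_add (a := m) hR0
    rw [hm', Nat.add_mul, one_mul]; omega
  have hm'M : M + 1 ≤ m' := by
    rw [hm', Nat.le_div_iff_mul_le hR0]
    rw [mul_comm]; exact hm
  have hεN : 1 < ε * T := by
    rw [div_lt_iff₀ hε] at hT; linarith
  have hw1 : w * (K + 1) ≤ m := Nat.div_mul_le_self _ _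
  have hw2 : m < (w + 1) * (K + 1) := by
    have := Nat.lt_div_mul_add (a := m) (Nat.succ_pos K)
    rw [hw, Nat.add_mul, one_mul]; exact this
  -- the short window fits
  have hfit : (∑ l, p l) + m' ≤ w := by
    have hK0 : (0 : ℝ) < (K : ℝ) + 1 := by positivity
    have a1 : (m : ℝ) < (w + 1) * (K + 1) := by exact_mod_cast hw2
    have a2 : (m' : ℝ) * (2 * T * (K + 1)) ≤ m := by
      have : ((m' * R : ℕ) : ℝ) ≤ m := by exact_mod_cast hm'1
      rw [hR] at this
      push_cast at this
      linarith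
    have a3 : ((∑ l, p l : ℕ) : ℝ) * (K + 1) ≤ (1 - ε) * m := by
      rw [le_div_iff₀ hK0] at hsum
      exact hsum
    have a4 : (1 : ℝ) ≤ m' := by
      have : 1 ≤ m' := by omega
      exact_mod_cast this
    have a5 : (0 : ℝ) ≤ m := Nat.cast_nonneg _
    have a6 : (m' : ℝ) * (K + 1) * 2 ≤ ε * m := by
      have b1 : ε * ((m' : ℝ) * (2 * T * (K + 1))) ≤ ε * m :=
        mul_le_mul_of_nonneg_left a2 hε.le
      have b2 : (m' : ℝ) * (K + 1) * 2 * 1 ≤ (m' : ℝ) * (K + 1) * 2 * (ε * T) := by
        apply mul_le_mul_of_nonneg_left hεN.le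
        positivity
      calc (m' : ℝ) * (K + 1) * 2 = (m' : ℝ) * (K + 1) * 2 * 1 := by ring
        _ ≤ (m' : ℝ) * (K + 1) * 2 * (ε * T) := b2
        _ = ε * ((m' : ℝ) * (2 * T * (K + 1))) := by ring
        _ ≤ ε * m := b1
    have a7 : ((((∑ l, p l) + m' : ℕ) : ℝ)) * (K + 1) < (w + 1) * (K + 1) - (K + 1) + (K + 1) := by
      push_cast
      push_cast at a3
      nlinarith
    have a8 : ((((∑ l, p l) + m' : ℕ) : ℝ)) < w + 1 := by
      have : ((((∑ l, p l) + m' : ℕ) : ℝ)) * (K + 1) < ((w : ℝ) + 1) * (K + 1) := by linarith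
      exact lt_of_mul_lt_mul_right this hK0.le
    have a9 : (∑ l, p l) + m' < w + 1 := by exact_mod_cast a8
    omega
  -- a block without exceptions
  obtain ⟨u, hu1, hu2⟩ := Pool.Agent.H352.Win.exists_gap m K w hw1 _ hcon
  have hagree : ∀ i, u ≤ i → i < u + w →
      ∑ j, lam j * (c (q j) (t j + i + 1) : ℝ) = ∑ l, f l i := by
    intro i hi1 hi2
    have h5 := hu2 i hi1 hi2
    rw [Finset.mem_filter, not_and, not_not] at h5
    exact h5 (Finset.mem_range.2 (by omega))
  -- the integer vectors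
  set v : Fin D → Fin m' → ℤ := fun j i => act (perPoly p) (c (q j)) (t j + (u + i.val) + 1)
    with hv
  have hvrel : ∀ i, ∑ j, lam j * (v j i : ℝ) = 0 := by
    intro i
    have hi := i.isLt
    have e1 : ∀ j, (v j i : ℝ) =
        act (perPoly p) (fun k => (c (q j) (t j + k + 1) : ℝ)) (u + i.val) := by
      intro j
      rw [hv]
      simp only
      rw [← act_cast, act_eq, act_eq]
      apply Finset.sum_congr rfl
      intro k _
      have : t j + (u + i.val) + 1 + k = t j + (u + i.val + k) + 1 := by omega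
      rw [this]
    have e2 : ∑ j, lam j * (v j i : ℝ) =
        act (perPoly p) (fun k => ∑ j, lam j * (c (q j) (t j + k + 1) : ℝ)) (u + i.val) := by
      rw [act_eq]
      simp_rw [e1, act_eq]
      simp_rw [Finset.mul_sum]
      rw [Finset.sum_comm]
      apply Finset.sum_congr rfl
      intro k _
      rw [Finset.smul_sum]
      apply Finset.sum_congr rfl
      intro j _
      rw [zsmul_eq_mul, zsmul_eq_mul]; ring
    rw [e2, act_congr (perPoly p) _ (∑ l, f l) (u + i.val), act_perPoly p f hf]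
    · rfl
    · intro k hk
      rw [Finset.sum_apply]
      exact hagree _ (by omega) (by
        have := hk.trans h4
        omega)
  have hvB : ∀ j i, |v j i| ≤ ((2 ^ E * (2 ^ E * B) : ℕ) : ℤ) := by
    intro j i
    exact Pool.Agent.H352.Win.abs_act_le (perPoly p) (c (q j)) (2 ^ E) (2 ^ E) B h2 h3 (hc _) _
  have hindep : LinearIndependent ℚ (fun (j : Fin D) (i : Fin m') => (v j i : ℚ)) := by
    by_contra hdep
    rw [← LinearIndependent.iff_fractionRing (R := ℤ), Fintype.not_linearIndependent_iff] at hdep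
    obtain ⟨g, hg, j0, hj0⟩ := hdep
    obtain ⟨g', hg'0, hg'H, hg'⟩ := hH m' v hvB
      ⟨g, fun h => hj0 (by rw [h]; rfl), by
        intro i
        have h1 := congrFun hg i
        rw [Finset.sum_apply] at h1
        have h2 : ∑ j, (g j : ℚ) * (v j i : ℚ) = 0 := by
          rw [← h1.trans (Pi.zero_apply i)]
          apply Finset.sum_congr rfl
          intro j _
          rw [Pi.smul_apply, zsmul_eq_mul]
        exact_mod_cast h2⟩
    -- the coefficients which belong to the number `k`
    set gk : Fin N → Fin D → ℤ := fun k j => if q j = k then g' j else 0 with hgk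
    have hgkH : ∀ k j, |gk k j| ≤ H := by
      intro k j
      simp only [hgk]
      split_ifs
      · exact hg'H j
      · rw [abs_zero]; exact Nat.cast_nonneg _
    obtain ⟨j1, hj1⟩ : ∃ j1, g' j1 ≠ 0 := by
      by_contra h
      push Not at h
      exact hg'0 (funext h)
    have hsp0 : sp (fun j => t j + u) (gk (q j1)) ≠ 0 := by
      intro h0
      apply hj1
      have h5 : (sp (fun j => t j + u) (gk (q j1))).coeff (t j1 + u) = g' j1 := by
        rw [sp_coeff, Finset.sum_eq_single j1]
        · simp [hgk]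
        · intro j _ hj
          by_cases hq : q j = q j1
          · rw [if_neg]
            intro h6
            apply hj
            apply ht
            simp only [Prod.mk.injEq]
            exact ⟨hq, by omega⟩
          · simp [hgk, hq]
        · intro h; exact absurd (Finset.mem_univ _) h
      rw [← h5, h0]; simp
    obtain ⟨n, hn1, hn2, hn3⟩ := hM c x hc hx hrec hint m' (by omega)
      (fun k => sp (fun j => t j + u) (gk k) * perPoly p) ⟨q j1, mul_ne_zero hsp0 h1⟩
      (fun k => (support_mul_card _ _).trans (Nat.mul_le_mul (sp_supp_card _ _) h2))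
      (by
        intro k i
        have := Pool.Agent.H352.Win.coeff_sp_mul_bound (fun j => t j + u) (gk k) (perPoly p) H
          (2 ^ E) (hgkH k) (by exact_mod_cast h3) i
        exact_mod_cast this)
      (by
        intro k
        refine natDegree_mul_le.trans ?_
        have h5 : (sp (fun j => t j + u) (gk k)).natDegree ≤ C * m + m :=
          sp_natDegree _ _ _ (fun j => Nat.add_le_add (htC j) (by omega))
        have hwm : w ≤ m := by
          rw [hw]; exact Nat.div_le_self _ _
        have h6 : (perPoly p).natDegree ≤ m := h4.trans (by omega)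
        have h7 : m ≤ 2 * R * m' := by
          have : (m' + 1) * R ≤ 2 * R * m' := by
            have : m' + 1 ≤ 2 * m' := by omega
            calc (m' + 1) * R ≤ (2 * m') * R := Nat.mul_le_mul_right _ this
              _ = 2 * R * m' := by ring
          omega
        calc (sp (fun j => t j + u) (gk k)).natDegree + (perPoly p).natDegree
            ≤ (C * m + m) + m := Nat.add_le_add h5 h6
          _ = (C + 2) * m := by ring
          _ ≤ (C + 2) * (2 * R * m') := Nat.mul_le_mul_left _ h7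
          _ = 2 * R * (C + 2) * m' := by ring)
    apply hn3
    have h5 := hg' ⟨n - 1, by omega⟩
    rw [← h5]
    have h6 : ∀ k, act (sp (fun j => t j + u) (gk k) * perPoly p) (c k) n =
        ∑ j, gk k j * act (perPoly p) (c k) (n + (t j + u)) := by
      intro k
      rw [act_mul, sp_act]
    rw [Finset.sum_congr rfl fun k _ => h6 k, Finset.sum_comm]
    apply Finset.sum_congr rfl
    intro j _
    rw [Finset.sum_eq_single (q j)]
    · simp only [hgk, if_true, hv]
      have h7 : n + (t j + u) = t j + (u + (n - 1)) + 1 := by omega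
      rw [h7]
    · intro k _ hk
      simp only [hgk]
      rw [if_neg (Ne.symm hk), zero_mul]
    · intro h; exact absurd (Finset.mem_univ _) h
  exact hlam (Pool.Agent.H352.Win.real_indep v hindep lam hvrel)

/-- the window theorem for bounded integer expansions of several numbers, uniformly in the
expansions -/
theorem expansionN {b : ℕ} (hb : 2 ≤ b) {N : ℕ} (ξ : Fin N → ℝ)
    (halg : ∀ k, IsAlgebraic ℚ (ξ k))
    (hind : ∀ (c : Fin N → ℤ) (c0 : ℤ), ∑ k, ξ k * (c k : ℝ) = c0 → c = 0)
    (B D E K C : ℕ) (ε : ℝ) (hε : 0 < ε) :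
    ∃ M : ℕ, ∀ c : Fin N → ℕ → ℤ, (∀ k n, 1 ≤ n → |c k n| ≤ B) →
      (∀ k, HasSum (fun n : ℕ => (c k n : ℝ) / (b : ℝ) ^ n) (ξ k)) →
      ∀ m : ℕ, M ≤ m → ∀ (q : Fin D → Fin N) (t : Fin D → ℕ),
      Function.Injective (fun j => (q j, t j)) → (∀ j, t j ≤ C * m) →
      ∀ lam : Fin D → ℝ, lam ≠ 0 → ∀ p : Fin E → ℕ, (∀ l, 0 < p l) →
      ((∑ l, p l : ℕ) : ℝ) ≤ (1 - ε) * m / (K + 1) →
      ∀ f : Fin E → ℕ → ℝ, (∀ l n, f l (n + p l) = f l n) →
      K < ((Finset.range m).filter
        (fun i => ∑ j, lam j * (c (q j) (t j + i + 1) : ℝ) ≠ ∑ l, f l i)).card := by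
  have hbR : (2 : ℝ) ≤ b := by exact_mod_cast hb
  have hb0 : (0 : ℝ) < b := by linarith
  obtain ⟨M, hM⟩ := generalN hb ξ halg hind B D E K C ε hε
  refine ⟨M, ?_⟩
  intro c hc1 hsum m hm q t ht htC lam hlam p hp hps f hf
  have hc : ∀ k n, |c k (n + 1)| ≤ B := fun k n => hc1 k (n + 1) (by omega)
  set y : Fin N → ℕ → ℝ := fun k n => ∑' i : ℕ, (c k (n + i + 1) : ℝ) / (b : ℝ) ^ (i + 1) with hy
  set c' : Fin N → ℕ → ℤ := fun k n => if n = 0 then 0 else c k n with hc'
  have hc's : ∀ k n, c' k (n + 1) = c k (n + 1) := by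
    intro k n; rw [hc']; simp
  have hrec : ∀ k n, (b : ℝ) * y k n = c' k (n + 1) + y k (n + 1) := by
    intro k n
    have h1 := Pool.Agent.H352.Win.summable_tail b hb (c k) B (hc k) n
    rw [hc's]
    have h2 : y k n = (c k (n + 1) : ℝ) / b +
        ∑' i : ℕ, (c k (n + (i + 1) + 1) : ℝ) / (b : ℝ) ^ (i + 1 + 1) := by
      rw [hy]
      simp only
      rw [h1.tsum_eq_zero_add]
      simp
    have h3 : ∑' i : ℕ, (c k (n + (i + 1) + 1) : ℝ) / (b : ℝ) ^ (i + 1 + 1) = y k (n + 1) / b := by
      rw [hy]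
      simp only
      rw [← tsum_div_const]
      apply tsum_congr
      intro i
      have : n + (i + 1) + 1 = n + 1 + i + 1 := by omega
      rw [this, div_div, ← pow_succ]
    rw [h2, h3]
    field_simp
  have hy0 : ∀ k, ξ k - y k 0 = c k 0 := by
    intro k
    rw [← (hsum k).tsum_eq, hy]
    simp only
    rw [(hsum k).summable.tsum_eq_zero_add]
    simp only [pow_zero, div_one, zero_add]
    ring
  have hint : ∀ k n, ∃ i : ℤ, ξ k * (b : ℝ) ^ n - y k n = i := by
    intro k n
    induction n with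
    | zero => exact ⟨c k 0, by rw [pow_zero, mul_one]; exact hy0 k⟩
    | succ n ih =>
      obtain ⟨i, hi⟩ := ih
      refine ⟨b * i + c' k (n + 1), ?_⟩
      have h1 := hrec k n
      push_cast
      rw [← hi, pow_succ]
      linarith
  have h := hM c' y
    (by
      intro k n
      rw [hc']
      simp only
      split_ifs with h0
      · simp
      · obtain ⟨i, rfl⟩ := Nat.exists_eq_succ_of_ne_zero h0
        exact hc k i)
    (fun k n => Pool.Agent.H352.Win.tail_bound b hb (c k) B (hc k) n) hrec hint m hm q t ht htC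
    lam hlam p hp hps f hf
  have hset : ((Finset.range m).filter
      (fun i => ∑ j, lam j * (c' (q j) (t j + i + 1) : ℝ) ≠ ∑ l, f l i)) =
      ((Finset.range m).filter
      (fun i => ∑ j, lam j * (c (q j) (t j + i + 1) : ℝ) ≠ ∑ l, f l i)) := by
    apply Finset.filter_congr
    intro i _
    have : ∑ j, lam j * (c' (q j) (t j + i + 1) : ℝ) =
        ∑ j, lam j * (c (q j) (t j + i + 1) : ℝ) := by
      apply Finset.sum_congr rfl
      intro j _
      rw [hc's]
    rw [this]
  rw [hset] at h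
  exact h

end Pool.Agent.Q164.JW
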