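import Mathlib
import Pool.Agent.Q164.JW.Gen
import Pool.Agent.Q163.LZ.Count

/-!
# Digits of algebraic numbers relative to the digits of independent algebraic numbers
-/

set_option autoImplicit false

open Finset

namespace Pool.Agent.Q164.JW

/-- the words which may be used: `u` for the number `κ`, the given digits for the other numbers -/
def wrd {n : ℕ} (κ : Fin n) (c : Fin n → ℕ → ℤ) (u : ℕ → ℝ) (k : Fin n) (i : ℕ) : ℝ :=
  if k = κ then u i else c k i

/-- `F` is the set of the first places of the phrases. In the phrase which starts at the place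
`e` and ends before the next element of `F`, the word `u` is a fixed linear combination of at most
`A` shifts of `u` itself (by at most `e - 1` places to the right) and of the digits of the
other numbers (by less than `e` places to the right or by at most `A e` places to the left) and of
at most `A` periodic sequences whose periods add up to at most `A + γ e`. -/
def RelPhrase {n : ℕ} (κ : Fin n) (c : Fin n → ℕ → ℤ) (A : ℕ) (γ : ℝ) (N : ℕ) (F : Finset ℕ)
    (u : ℕ → ℝ) (e : ℕ) : Prop :=
  ∃ (D E : ℕ) (q : Fin D → Fin n) (s : Fin D → ℤ) (lam : Fin D → ℝ) (p : Fin E → ℕ)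
    (f : Fin E → ℕ → ℝ),
    D ≤ A ∧ E ≤ A ∧ Function.Injective (fun j => (q j, s j)) ∧
    (∀ j, -(e : ℤ) < s j ∧ (q j = κ → s j < 0) ∧ s j ≤ (A : ℤ) * e) ∧ (∀ l, 0 < p l) ∧
    ((∑ l, p l : ℕ) : ℝ) ≤ A + γ * e ∧ (∀ l i, f l (i + p l) = f l i) ∧
    ∀ i, e ≤ i → i ≤ N → (∀ g ∈ F, g ≤ e ∨ i < g) →
      u i = ∑ j, lam j * wrd κ c u (q j) ((i : ℤ) + s j).toNat + ∑ l, f l i

/-- the word `u 1, …, u N` has a relative description with the starting places `F` -/
def RelDescribed {n : ℕ} (κ : Fin n) (c : Fin n → ℕ → ℤ) (A : ℕ) (γ : ℝ) (N : ℕ) (F : Finset ℕ)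
    (u : ℕ → ℝ) : Prop :=
  1 ∈ F ∧ ∀ e ∈ F, RelPhrase κ c A γ N F u e

/-- One scale: if there are few phrases between `m` and `4 T m` then there are many errors. -/
theorem scaleN {n : ℕ} {κ : Fin n} {A K T M : ℕ} {γ : ℝ} {c : Fin n → ℕ → ℤ} (hT : 1 ≤ T)
    (hγ0 : 0 ≤ γ) (hγ : γ * (16 * T * (K + 1)) ≤ 1)
    (hW : ∀ D ≤ A, ∀ E ≤ A, ∀ m : ℕ, M ≤ m → ∀ (q : Fin (D + 1) → Fin n) (t : Fin (D + 1) → ℕ),
      Function.Injective (fun j => (q j, t j)) →
      (∀ j, t j ≤ 4 * T * (A + 1) * m) → ∀ lam : Fin (D + 1) → ℝ, lam ≠ 0 → ∀ p : Fin E → ℕ,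
      (∀ l, 0 < p l) → ((∑ l, p l : ℕ) : ℝ) ≤ (1 - 1 / 2) * m / (K + 1) →
      ∀ f : Fin E → ℕ → ℝ, (∀ l n, f l (n + p l) = f l n) →
      K < ((Finset.range m).filter
        (fun i => ∑ j, lam j * (c (q j) (t j + i + 1) : ℝ) ≠ ∑ l, f l i)).card)
    {N : ℕ} {F : Finset ℕ} {u : ℕ → ℝ} (hu : RelDescribed κ c A γ N F u)
    {m : ℕ} (hm : M ≤ m) (hmA : 4 * A * (K + 1) ≤ m) (hm1 : 1 ≤ m) (hmN : 4 * T * m ≤ N)
    (hF : (F.filter fun e => m < e ∧ e ≤ 4 * T * m).card < T) :
    K < (A + 1) * ((Ioc m (4 * T * m)).filter fun i => (c κ i : ℝ) ≠ u i).card := by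
  classical
  -- a stretch without starting places
  obtain ⟨i₀, hi₀, hfree⟩ : ∃ i < T, ∀ e ∈ F, ¬ (2 * T * m + 2 * i * m < e ∧
      e ≤ 2 * T * m + 2 * i * m + 2 * m) := by
    by_contra hcon
    push Not at hcon
    choose! φ hφ1 hφ2 hφ3 using hcon
    have h1 : (range T).card ≤ (F.filter fun e => m < e ∧ e ≤ 4 * T * m).card := by
      refine card_le_card_of_injOn φ ?_ ?_
      · intro i hi
        have hi' : i < T := mem_range.1 (by simpa using hi)
        have a1 := hφ1 i hi'
        have a2 := hφ2 i hi'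
        have a3 := hφ3 i hi'
        have b1 : (i + 1) * m ≤ T * m := Nat.mul_le_mul_right _ hi'
        have b2 : 1 * m ≤ T * m := Nat.mul_le_mul_right _ hT
        have b3 : (i + 1) * m = i * m + m := by ring
        have b4 : 2 * T * m = 2 * (T * m) := by ring
        have b5 : 4 * T * m = 4 * (T * m) := by ring
        have b6 : 2 * i * m = 2 * (i * m) := by ring
        rw [b4, b6] at a2 a3
        rw [mem_coe, mem_filter, b5]
        exact ⟨a1, by omega, by omega⟩
      · intro i hi j hj hij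
        have hi' : i < T := mem_range.1 (by simpa using hi)
        have hj' : j < T := mem_range.1 (by simpa using hj)
        have a2 := hφ2 i hi'
        have a3 := hφ3 i hi'
        have c2 := hφ2 j hj'
        have c3 := hφ3 j hj'
        rw [hij] at a2 a3
        rcases lt_trichotomy i j with h | h | h
        · have b1 : (i + 1) * m ≤ j * m := Nat.mul_le_mul_right _ h
          have b3 : (i + 1) * m = i * m + m := by ring
          have b6 : 2 * i * m = 2 * (i * m) := by ring
          have b7 : 2 * j * m = 2 * (j * m) := by ring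
          omega
        · exact h
        · have b1 : (j + 1) * m ≤ i * m := Nat.mul_le_mul_right _ h
          have b3 : (j + 1) * m = j * m + m := by ring
          have b6 : 2 * i * m = 2 * (i * m) := by ring
          have b7 : 2 * j * m = 2 * (j * m) := by ring
          omega
    rw [card_range] at h1
    omega
  set g : ℕ := 2 * T * m + 2 * i₀ * m with hg
  have hg1 : m ≤ g := by
    have b2 : 1 * m ≤ T * m := Nat.mul_le_mul_right _ hT
    have b4 : 2 * T * m = 2 * (T * m) := by ring
    omega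
  have hg2 : g + 2 * m ≤ 4 * T * m := by
    have b1 : (i₀ + 1) * m ≤ T * m := Nat.mul_le_mul_right _ hi₀
    have b3 : (i₀ + 1) * m = i₀ * m + m := by ring
    have b4 : 2 * T * m = 2 * (T * m) := by ring
    have b5 : 4 * T * m = 4 * (T * m) := by ring
    have b6 : 2 * i₀ * m = 2 * (i₀ * m) := by ring
    omega
  -- the phrase
  obtain ⟨hF1, hph⟩ := hu
  have hne : (F.filter fun e => e ≤ g).Nonempty :=
    ⟨1, mem_filter.2 ⟨hF1, by omega⟩⟩
  set e := (F.filter fun e => e ≤ g).max' hne with he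
  have heF : e ∈ F.filter fun e => e ≤ g := max'_mem _ _
  rw [mem_filter] at heF
  obtain ⟨D, E, q, s, lam, p, f, hD, hE, hinj, hh, hp, hps, hf, hrel⟩ := hph e heF.1
  have hmax : ∀ e' ∈ F, e' ≤ e ∨ g + 2 * m < e' := by
    intro e' he'
    by_cases h1 : e' ≤ g
    · left
      exact le_max' _ _ (mem_filter.2 ⟨he', h1⟩)
    · right
      have := hfree e' he'
      omega
  have hrel' : ∀ i, g < i → i ≤ g + 2 * m →
      u i = ∑ j, lam j * wrd κ c u (q j) ((i : ℤ) + s j).toNat + ∑ l, f l i := by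
    intro i hi1 hi2
    refine hrel i (by omega) (by omega) fun e' he' => ?_
    rcases hmax e' he' with h1 | h1
    · exact .inl h1
    · exact .inr (by omega)
  -- the windows
  have hsg : ∀ j, -(g : ℤ) < s j := by
    intro j
    have h1 := (hh j).1
    have h2 : (e : ℤ) ≤ g := by exact_mod_cast heF.2
    linarith
  set q' : Fin (D + 1) → Fin n := Fin.cons κ q with hq'
  set t : Fin (D + 1) → ℕ := Fin.cons (g + m) (fun j => ((g : ℤ) + m + s j).toNat) with ht
  have htZ : ∀ j : Fin D, ((t j.succ : ℕ) : ℤ) = g + m + s j := by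
    intro j
    simp only [ht, Fin.cons_succ]
    have := hsg j
    rw [Int.toNat_of_nonneg]
    omega
  have htinj : Function.Injective (fun j => (q' j, t j)) := by
    intro i j
    refine Fin.cases ?_ (fun i => ?_) i
    · refine Fin.cases ?_ (fun j => ?_) j
      · intro _; rfl
      · intro h
        simp only [Prod.mk.injEq] at h
        exfalso
        have h1 : q j = κ := by
          have := h.1
          simpa [hq'] using this.symm
        have h2 := (hh j).2.1 h1
        have h3 := htZ j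
        have h4 : ((t 0 : ℕ) : ℤ) = g + m := by simp [ht]
        rw [← h.2, h4] at h3
        omega
    · refine Fin.cases ?_ (fun j => ?_) j
      · intro h
        simp only [Prod.mk.injEq] at h
        exfalso
        have h1 : q i = κ := by
          have := h.1
          simpa [hq'] using this
        have h2 := (hh i).2.1 h1
        have h3 := htZ i
        have h4 : ((t 0 : ℕ) : ℤ) = g + m := by simp [ht]
        rw [h.2, h4] at h3
        omega
      · intro h
        simp only [Prod.mk.injEq] at h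
        have h3 := htZ i
        have h4 := htZ j
        rw [h.2, h4] at h3
        have h5 : q i = q j := by
          have := h.1
          simpa [hq'] using this
        have h6 : i = j := hinj (by simp only [Prod.mk.injEq]; exact ⟨h5, by omega⟩)
        rw [h6]
  have htle : ∀ j, t j ≤ 4 * T * (A + 1) * m := by
    have hTm : 4 * T * (A + 1) * m = 4 * T * m + A * (4 * T * m) := by ring
    intro j
    refine Fin.cases ?_ (fun j => ?_) j
    · simp only [ht, Fin.cons_zero]
      omega
    · have h1 := htZ j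
      have h2 := (hh j).2.2
      have h3 : (A : ℤ) * e ≤ A * (4 * T * m) := by
        apply mul_le_mul_of_nonneg_left _ (Nat.cast_nonneg _)
        have : e ≤ 4 * T * m := by omega
        exact_mod_cast this
      have h4 : ((g + 2 * m : ℕ) : ℤ) ≤ ((4 * T * m : ℕ) : ℤ) := by exact_mod_cast hg2
      have h5 : ((t j.succ : ℕ) : ℤ) ≤ ((4 * T * (A + 1) * m : ℕ) : ℤ) := by
        rw [hTm, h1]
        push_cast
        push_cast at h4
        linarith
      exact_mod_cast h5
  set lam' : Fin (D + 1) → ℝ := Fin.cons 1 (fun j => - lam j) with hlam'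
  have hlam0 : lam' ≠ 0 := by
    intro h0
    have := congrFun h0 0
    simp [hlam'] at this
  have hKpos : (0 : ℝ) < K + 1 := by positivity
  have hps' : ((∑ l, p l : ℕ) : ℝ) ≤ (1 - 1 / 2) * m / (K + 1) := by
    refine hps.trans ?_
    rw [le_div_iff₀ hKpos]
    have e1 : (e : ℝ) ≤ 4 * T * m := by
      have : e ≤ 4 * T * m := by omega
      exact_mod_cast this
    have e2 : (4 * A * (K + 1) : ℝ) ≤ m := by exact_mod_cast hmA
    have hm0 : (0 : ℝ) ≤ m := Nat.cast_nonneg m
    have e3 : γ * e ≤ γ * (4 * T * m) := mul_le_mul_of_nonneg_left e1 hγ0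
    have e4 : γ * (4 * T * m) * (K + 1) ≤ m / 4 := by
      have : γ * (4 * T * m) * (K + 1) = (γ * (16 * T * (K + 1))) * m / 4 := by ring
      rw [this]
      have := mul_le_mul_of_nonneg_right hγ hm0
      linarith
    have e5 : γ * e * (K + 1) ≤ γ * (4 * T * m) * (K + 1) :=
      mul_le_mul_of_nonneg_right e3 hKpos.le
    nlinarith
  have hw := hW D hD E hE m hm q' t htinj htle lam' hlam0 p hp hps'
    (fun l i => f l (g + m + i + 1)) (by
      intro l i
      have : g + m + (i + p l) + 1 = (g + m + i + 1) + p l := by ring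
      simp only [this, hf])
  -- every failure is near an error
  set S := (Ioc m (4 * T * m)).filter fun i => (c κ i : ℝ) ≠ u i with hS
  have hsub : ((range m).filter (fun i => ∑ j, lam' j * (c (q' j) (t j + i + 1) : ℝ) ≠
      ∑ l, f l (g + m + i + 1))) ⊆
      (univ : Finset (Fin (D + 1))).biUnion fun j =>
        (range m).filter fun i => t j + i + 1 ∈ S := by
    intro i hi
    rw [mem_filter, mem_range] at hi
    rw [mem_biUnion]
    by_contra hcon
    push Not at hcon
    apply hi.2
    have hc : ∀ j, q' j = κ → (c κ (t j + i + 1) : ℝ) = u (t j + i + 1) := by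
      intro j hj
      have h1 := hcon j (mem_univ _)
      rw [mem_filter, mem_range] at h1
      by_contra h2
      refine h1 ⟨hi.1, ?_⟩
      rw [hS, mem_filter, mem_Ioc]
      have hb1 : m < t j ∧ t j ≤ g + m := by
        revert hj
        refine Fin.cases ?_ (fun j => ?_) j
        · intro _
          simp only [ht, Fin.cons_zero]
          omega
        · intro hj
          have h3 := htZ j
          have h4 := hsg j
          have h5 := (hh j).2.1 (by simpa [hq'] using hj)
          omega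
      refine ⟨⟨by omega, by omega⟩, h2⟩
    have h2 := hrel' (g + m + i + 1) (by omega) (by omega)
    rw [Fin.sum_univ_succ]
    have h3 := hc 0 (by simp [hq'])
    have h40 : t 0 = g + m := by simp [ht]
    have h41 : q' 0 = κ := by simp [hq']
    have h42 : lam' 0 = 1 := by simp [hlam']
    rw [h40] at h3
    rw [h40, h41, h42, h3, h2, one_mul]
    have h4 : ∀ j : Fin D, lam' j.succ * (c (q' j.succ) (t j.succ + i + 1) : ℝ) =
        - (lam j * wrd κ c u (q j) (((g + m + i + 1 : ℕ) : ℤ) + s j).toNat) := by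
      intro j
      have h6 : (((g + m + i + 1 : ℕ) : ℤ) + s j).toNat = t j.succ + i + 1 := by
        have h7 := htZ j
        have h8 : ((g + m + i + 1 : ℕ) : ℤ) + s j = ((t j.succ + i + 1 : ℕ) : ℤ) := by
          push_cast
          linarith
        rw [h8, Int.toNat_natCast]
      have h9 : lam' j.succ = - lam j := by simp [hlam']
      have h10 : q' j.succ = q j := by simp [hq']
      rw [h6, h9, h10]
      unfold wrd
      split_ifs with h11
      · have h5 := hc j.succ (by rw [h10]; exact h11)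
        rw [h11, h5]
        ring
      · ring
    rw [Finset.sum_congr rfl fun j _ => h4 j, Finset.sum_neg_distrib]
    ring
  have hcard : ((range m).filter (fun i => ∑ j, lam' j * (c (q' j) (t j + i + 1) : ℝ) ≠
      ∑ l, f l (g + m + i + 1))).card ≤ (D + 1) * S.card := by
    refine (card_le_card hsub).trans ((card_biUnion_le_card_mul _ _ S.card ?_).trans ?_)
    · intro j _
      refine card_le_card_of_injOn (fun i => t j + i + 1) ?_ ?_
      · intro i hi
        rw [mem_coe, mem_filter] at hi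
        exact hi.2
      · intro a _ b _ hab
        simp only at hab
        omega
    · rw [card_univ, Fintype.card_fin]
  calc K < _ := hw
    _ ≤ (D + 1) * S.card := hcard
    _ ≤ (A + 1) * S.card := Nat.mul_le_mul_right _ (by omega)

theorem mainN {r : ℕ} (hr : 2 ≤ r) {n : ℕ} (x : Fin n → ℝ) (halg : ∀ k, IsAlgebraic ℚ (x k))
    (hind : ∀ (c : Fin n → ℤ) (c0 : ℤ), ∑ k, x k * (c k : ℝ) = c0 → c = 0)
    (A B : ℕ) : ∃ γ : ℝ, 0 < γ ∧ ∃ N₀ : ℕ, ∀ c : Fin n → ℕ → ℤ,
      (∀ k i, 1 ≤ i → |c k i| ≤ B) →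
      (∀ k, HasSum (fun i : ℕ => (c k i : ℝ) / (r : ℝ) ^ i) (x k)) →
      ∀ (κ : Fin n), ∀ N ≥ N₀, ∀ (u : ℕ → ℝ) (F : Finset ℕ),
      (F.card : ℝ) ≤ A * Real.log N → RelDescribed κ c A γ N F u →
      A * Real.log N ≤ (((Icc 1 N).filter fun i => (c κ i : ℝ) ≠ u i).card : ℝ) := by
  classical
  obtain ⟨k, hk⟩ : ∃ k : ℕ, k = 64 * (A + 1) := ⟨_, rfl⟩
  obtain ⟨T, hT⟩ : ∃ T : ℕ, T = k ^ 2 := ⟨_, rfl⟩
  obtain ⟨Q, hQ⟩ : ∃ Q : ℕ, Q = 8 * (A + 1) * k := ⟨_, rfl⟩
  obtain ⟨K, hK⟩ : ∃ K : ℕ, K = (A + 1) * Q := ⟨_, rfl⟩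
  have hk1 : 1 ≤ k := by omega
  have hT1 : 1 ≤ T := by rw [hT]; exact Nat.one_le_pow _ _ hk1
  have hTR : (0 : ℝ) < T := by positivity
  set R : ℕ := 4 * T with hR
  have hR2 : 2 ≤ R := by omega
  -- the logarithm of `R`
  have hlogR : Real.log R ≤ 4 * k := by
    have h1 : (R : ℝ) = (2 * k) ^ 2 := by rw [hR, hT]; push_cast; ring
    rw [h1, Real.log_pow]
    have h2 : (0 : ℝ) < 2 * k := by positivity
    have h3 := Real.log_le_sub_one_of_pos h2
    push_cast
    linarith
  -- the constants of the window theorem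
  choose M₀ hM₀ using fun (D E : ℕ) =>
    expansionN hr x halg hind B (D + 1) E K (4 * T * (A + 1)) (1 / 2) (by norm_num)
  set M : ℕ := ∑ D ∈ range (A + 1), ∑ E ∈ range (A + 1), M₀ D E with hM
  have hMle : ∀ D ≤ A, ∀ E ≤ A, M₀ D E ≤ M := by
    intro D hD E hE
    rw [hM]
    calc M₀ D E ≤ ∑ E ∈ range (A + 1), M₀ D E :=
          Finset.single_le_sum (fun _ _ => Nat.zero_le _) (mem_range.2 (by omega))
      _ ≤ _ := Finset.single_le_sum (f := fun D => ∑ E ∈ range (A + 1), M₀ D E)
          (fun _ _ => Nat.zero_le _) (mem_range.2 (by omega))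
  set j₀ : ℕ := M + 4 * A * (K + 1) with hj₀
  refine ⟨1 / (16 * T * (K + 1)), by positivity, R ^ (4 * (j₀ + 1)), ?_⟩
  intro c hcB hsum κ N hN u F hFc hdes
  have hN1 : 1 ≤ N := le_trans (Nat.one_le_pow _ _ (by omega)) hN
  set J : ℕ := Nat.log R N with hJ
  have hJN : R ^ J ≤ N := Nat.pow_log_le_self R (by omega)
  have hNJ : N < R ^ (J + 1) := Nat.lt_pow_succ_log_self (by omega) N
  have hJ0 : 4 * (j₀ + 1) ≤ J := by
    rw [hJ]
    exact Nat.le_log_of_pow_le (by omega) hN
  have hlogN : Real.log N ≤ (J + 1) * (4 * k) := by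
    have h1 : (N : ℝ) ≤ (R : ℝ) ^ (J + 1) := by exact_mod_cast hNJ.le
    have h2 := Real.log_le_log (by exact_mod_cast hN1 : (0 : ℝ) < N) h1
    rw [Real.log_pow] at h2
    push_cast at h2
    refine h2.trans ?_
    exact mul_le_mul_of_nonneg_left hlogR (by positivity)
  -- good scales
  set G : Finset ℕ := (Ico j₀ J).filter fun j =>
    (F.filter fun e => R ^ j < e ∧ e ≤ R ^ (j + 1)).card < T with hG
  have hgood : ∀ j ∈ G, Q ≤ (((Icc 1 N).filter fun i => (c κ i : ℝ) ≠ u i).filter
      fun e => R ^ j < e ∧ e ≤ R ^ (j + 1)).card := by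
    intro j hj
    rw [hG, mem_filter, mem_Ico] at hj
    obtain ⟨⟨hj1, hj2⟩, hj3⟩ := hj
    have hjj : j < R ^ j := Nat.lt_pow_self (by omega)
    have hRj : R ^ (j + 1) ≤ N :=
      (Nat.pow_le_pow_right (by omega) (by omega : j + 1 ≤ J)).trans hJN
    have hRm : 4 * T * R ^ j = R ^ (j + 1) := by rw [pow_succ, hR]; ring
    have h := scaleN (κ := κ) (A := A) (K := K) (T := T) (M := M) (c := c) (m := R ^ j) hT1
      (γ := 1 / (16 * T * (K + 1))) (by positivity)
      (by
        have : (16 * T * (K + 1) : ℝ) ≠ 0 := by positivity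
        rw [one_div, inv_mul_cancel₀ this])
      (fun D hD E hE m hm => hM₀ D E c hcB hsum m ((hMle D hD E hE).trans hm)) hdes
      (by omega) (by omega) (Nat.one_le_pow _ _ (by omega)) (by rw [hRm]; exact hRj)
      (by rw [hRm]; exact hj3)
    rw [hRm, hK] at h
    have h2 : Q < ((Ioc (R ^ j) (R ^ (j + 1))).filter fun i => (c κ i : ℝ) ≠ u i).card :=
      Nat.lt_of_mul_lt_mul_left h
    refine h2.le.trans (card_le_card fun i hi => ?_)
    rw [mem_filter, mem_Ioc] at hi
    rw [mem_filter, mem_filter, mem_Icc]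
    exact ⟨⟨⟨by omega, by omega⟩, hi.2⟩, hi.1⟩
  -- the number of good scales
  have hbad : T * ((Ico j₀ J).filter fun j =>
      ¬ (F.filter fun e => R ^ j < e ∧ e ≤ R ^ (j + 1)).card < T).card ≤ F.card := by
    refine le_trans ?_ (Pool.Agent.Q163.LZ.sum_scales F hR2 ((Ico j₀ J).filter fun j =>
      ¬ (F.filter fun e => R ^ j < e ∧ e ≤ R ^ (j + 1)).card < T))
    rw [mul_comm, ← smul_eq_mul]
    refine Finset.card_nsmul_le_sum _ _ _ fun j hj => ?_
    rw [mem_filter] at hj
    omega
  have htot : G.card + ((Ico j₀ J).filter fun j =>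
      ¬ (F.filter fun e => R ^ j < e ∧ e ≤ R ^ (j + 1)).card < T).card = J - j₀ := by
    rw [hG, Finset.card_filter_add_card_filter_not, Nat.card_Ico]
  set b := ((Ico j₀ J).filter fun j =>
      ¬ (F.filter fun e => R ^ j < e ∧ e ≤ R ^ (j + 1)).card < T).card with hb
  have hbR : (b : ℝ) ≤ (J + 1) / 16 := by
    have h1 : (T : ℝ) * b ≤ A * ((J + 1) * (4 * k)) := by
      calc (T : ℝ) * b ≤ F.card := by exact_mod_cast hbad
        _ ≤ A * Real.log N := hFc
        _ ≤ _ := mul_le_mul_of_nonneg_left hlogN (Nat.cast_nonneg _)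
    have h2 : (T : ℝ) = k * k := by rw [hT]; push_cast; ring
    have hkR : (0 : ℝ) < k := by exact_mod_cast hk1
    have h3 : (k : ℝ) * b ≤ A * ((J + 1) * 4) := by
      rw [h2] at h1
      have h4 : (k : ℝ) * (k * b) ≤ k * (A * ((J + 1) * 4)) := by nlinarith
      exact le_of_mul_le_mul_left h4 hkR
    have h5 : (k : ℝ) = 64 * (A + 1) := by rw [hk]; push_cast; ring
    have hA0 : (0 : ℝ) ≤ A := Nat.cast_nonneg _
    have hJ0' : (0 : ℝ) ≤ J := Nat.cast_nonneg _
    rw [h5] at h3
    have hb0 : (0 : ℝ) ≤ b := Nat.cast_nonneg _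
    have h6 : (64 * ((A : ℝ) + 1)) * b ≤ (64 * ((A : ℝ) + 1)) * ((J + 1) / 16) := by nlinarith
    exact le_of_mul_le_mul_left h6 (by positivity)
  have hGR : ((J : ℝ) + 1) / 2 ≤ G.card := by
    have h1 : (G.card : ℝ) + b = J - j₀ := by
      have h2 : j₀ ≤ J := by omega
      have h3 : G.card + b + j₀ = J := by omega
      have h4 : (G.card : ℝ) + b + j₀ = J := by exact_mod_cast h3
      linarith
    have h5 : 4 * ((j₀ : ℝ) + 1) ≤ J := by exact_mod_cast hJ0
    linarith
  have hfin : Q * G.card ≤ ((Icc 1 N).filter fun i => (c κ i : ℝ) ≠ u i).card := by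
    refine le_trans ?_ (Pool.Agent.Q163.LZ.sum_scales _ hR2 G)
    rw [mul_comm, ← smul_eq_mul]
    exact Finset.card_nsmul_le_sum _ _ _ hgood
  have hfinR : (Q : ℝ) * G.card ≤
      (((Icc 1 N).filter fun i => (c κ i : ℝ) ≠ u i).card : ℝ) := by exact_mod_cast hfin
  refine le_trans ?_ hfinR
  have hQR : (Q : ℝ) = 8 * (A + 1) * k := by rw [hQ]; push_cast; ring
  have hA0 : (0 : ℝ) ≤ A := Nat.cast_nonneg _
  have hk0 : (0 : ℝ) ≤ k := Nat.cast_nonneg _
  calc (A : ℝ) * Real.log N ≤ A * ((J + 1) * (4 * k)) :=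
        mul_le_mul_of_nonneg_left hlogN hA0
    _ ≤ (8 * (A + 1) * k) * ((J + 1) / 2) := by
        have : 0 ≤ (k : ℝ) * (J + 1) := by positivity
        nlinarith
    _ ≤ Q * G.card := by
        rw [hQR]
        exact mul_le_mul_of_nonneg_left hGR (by positivity)

end Pool.Agent.Q164.JW
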